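import Pool.Agent.Helper18.RD.MAIN2
import Pool.Agent.Helper84.RD.PL2
import Pool.Agent.Helper26.RD.GR
import Pool.Agent.Helper30.RD.PER
import Pool.Agent.Helper46.RD.SGN
import Pool.Agent.Helper46.RD.UV
import Pool.Agent.Helper46.RD.W
import Pool.Agent.Helper54.RD.MLOW
import Pool.Agent.Helper58.RD.AR
import Pool.Agent.Helper58.RD.BL
import Pool.Agent.Helper58.RD.HALF
import Pool.Agent.Helper61.RD.CHI
import Pool.Agent.Helper61.RD.SV
import Pool.Agent.Helper46.RD.END2
import Pool.Agent.Helper64.RD.ENA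
import Pool.Agent.Helper4.RD.ENB
import Pool.Agent.Helper54.RD.ENC
import Pool.Agent.Helper79.RD.LOW
import Pool.Agent.Helper8.RD.SUM
import Pool.Agent.Helper12.RD.BAD2
import Pool.Agent.Helper95.RD.FIB
import Pool.Agent.Helper97.RD.GT
import Pool.Agent.Helper97.RD.TR
import Pool.Agent.Helper85.DG.LSI

/-! Project RD, second form: all rows together. -/

set_option autoImplicit false

namespace Pool.Agent.Helper18.RD

theorem ar : ST_AR :=
  Pool.Agent.Helper58.RD.st_AR Pool.Agent.Helper58.RD.st_HALF st_UV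
    (Pool.Agent.Helper26.RD.st_GR st_UV) (Pool.Agent.Helper61.RD.st_CHI st_SGN st_UV)

theorem sv : ST_SV := Pool.Agent.Helper61.RD.st_SV Pool.Agent.Helper37.DG.st_LSI

theorem mlow : ST_MLOW := st_MLOW (st_LOW st_CS) (st_SUM st_PER) Pool.Agent.Helper95.RD.st_FIB

theorem main2 : ST_MAIN2 :=
  st_MAIN2 ar (st_PL2 sv)
    (st_BAD2 (st_W Pool.Agent.Helper97.RD.st_TR) Pool.Agent.Helper58.RD.st_BL)
    Pool.Agent.Helper97.RD.st_GT mlow
    (st_END2 Pool.Agent.Helper64.RD.st_ENA Pool.Agent.Helper4.RD.st_ENB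
      Pool.Agent.Helper54.RD.st_ENC)

end Pool.Agent.Helper18.RD
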