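import Pool.Agent.Helper18.RD.Stmts3

/-! Project RD, fourth form: many primes up to some `P ≥ N ^ ε` divide `q`: exponent `ε`. -/

set_option autoImplicit false

namespace Pool.Agent.Helper18.RD

open Finset

/-- SQR: square roots of a squarefree number modulo `m`. -/
def ST_SQR : Prop := ∀ ε : ℝ, 0 < ε → ∃ C : ℝ, 0 < C ∧ ∀ m d : ℕ, 1 ≤ m → Squarefree d →
  (((range m).filter (fun t : ℕ => (m : ℤ) ∣ (t : ℤ) ^ 2 - d)).card : ℝ) ≤ C * (m : ℝ) ^ ε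

/-- PGR: two solutions of `X² - d Y² = m` in one class differ by a factor at least `2`. -/
def ST_PGR : Prop := ∀ (d : ℕ) (m : ℤ) (X1 Y1 X2 Y2 : ℕ), 1 ≤ X1 → 1 ≤ Y1 → 1 ≤ X2 → 1 ≤ Y2 →
  2 ≤ d → ¬ IsSquare d → m ≠ 0 → (X1 : ℤ) ^ 2 - d * (Y1 : ℤ) ^ 2 = m →
  (X2 : ℤ) ^ 2 - d * (Y2 : ℤ) ^ 2 = m → m ∣ (X1 : ℤ) * Y2 - X2 * Y1 →
  m ∣ (X1 : ℤ) * X2 - d * (Y1 * Y2) →
  (X1 : ℝ) + Y1 * Real.sqrt d < X2 + Y2 * Real.sqrt d →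
  2 * ((X1 : ℝ) + Y1 * Real.sqrt d) ≤ X2 + Y2 * Real.sqrt d

/-- PEL: few solutions of `a α² - b β² = c` in a box. -/
def ST_PEL : Prop := ∀ ε : ℝ, 0 < ε → ∃ C : ℝ, 0 < C ∧ ∀ (N a b : ℕ) (c : ℤ), 1 ≤ N →
  1 ≤ a → a ≤ N → Squarefree a → 1 ≤ b → b ≤ N → Squarefree b → c ≠ 0 → |c| ≤ N →
  (((Icc 1 N ×ˢ Icc 1 N).filter (fun t : ℕ × ℕ =>
    (a : ℤ) * (t.1 : ℤ) ^ 2 - b * (t.2 : ℤ) ^ 2 = c)).card : ℝ) ≤ C * (N : ℝ) ^ ε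

/-- ENT: from PEL to the triples. -/
def ST_ENT : Prop := ∀ ε : ℝ, 0 < ε → ∃ C : ℝ, 0 < C ∧ ∀ (N z : ℕ) (B : ℤ) (S : Finset ℕ),
  1 ≤ N → z < N → B ≠ 0 → |(B : ℝ)| ≤ 256 * (N : ℝ) ^ 4 → S ⊆ range N →
  ((E3 S z B).card : ℝ) ^ 2 ≤ C * (S.card : ℝ) ^ 5 * (N : ℝ) ^ ε

/-- END4 (from ENA and ENT). -/
def ST_END4 : Prop := ∀ ε : ℝ, 0 < ε → ∃ C : ℝ, 0 < C ∧ ∀ (N : ℕ) (S : Finset ℕ)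
  (c d : ℕ → ℕ → ℤ) (k : ℤ), 1 ≤ N → S ⊆ range N → (k = 1 ∨ k = 2) →
  (∀ n ∈ S, ∀ n' ∈ S, n ≠ n' → c n n' * d n n' = k * ((n : ℤ) - n')) →
  ((MM S c d).card : ℝ) ^ 2 ≤ C * (S.card : ℝ) ^ 15 * (N : ℝ) ^ ε

/-- DP4: if many primes up to some `P ≥ N ^ ε` divide `q` there are few squares. -/
def ST_DP4 : Prop := ∀ ε : ℝ, 0 < ε → ∃ C κ : ℝ, 0 < C ∧ 0 < κ ∧
  ∀ (N q1 q2 a P : ℕ) (D : ℝ), 1 ≤ N → 1 ≤ q1 → 1 ≤ q2 → Nat.Coprime q1 q2 →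
  Nat.Coprime (q1 * q2) a → (N : ℝ) ^ ε ≤ P → 1 ≤ D → (P : ℝ) ≤ D * (PP (q1 * q2) P).card →
  ((SS N (q1 * q2) a).card : ℝ) ≤
    C * (D ^ κ * (N : ℝ) ^ ε + D * Real.log q1 / P + (q2.primeFactors.card : ℝ))

end Pool.Agent.Helper18.RD
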