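import Pool.Agent.Helper18.RD.MAIN4
import Pool.Agent.Helper18.RD.Stmts4

/-! Project RD: all forms in one bound. -/

set_option autoImplicit false

namespace Pool.Agent.Helper18.RD

open Finset

/-- MAIN5 -/
def ST_MAIN5 : Prop := ∀ ε : ℝ, 0 < ε → ∃ C κ : ℝ, ∀ (N q1 q2 a P : ℕ) (D : ℝ), 1 ≤ N →
  1 ≤ q1 → 1 ≤ q2 → Nat.Coprime q1 q2 → Nat.Coprime (q1 * q2) a → (N : ℝ) ^ ε ≤ P → 1 ≤ D →
  (P : ℝ) ≤ D * (1 + (((q1 * q2).primeFactors.filter (fun p => p ≠ 2 ∧ p ≤ P)).card : ℝ)) →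
  (((range N).filter (fun n => IsSquare (q1 * q2 * n + a))).card : ℝ) ≤
    C * (min (min (Real.sqrt N * ((q1 * q2 : ℕ) / (Nat.totient (q1 * q2) : ℝ)) +
        (N : ℝ) ^ ε * Real.sqrt (Real.log q1))
      ((1 + Real.log N) * (Real.sqrt N + Real.sqrt (Real.log q1))))
      (D ^ κ * (N : ℝ) ^ ε + D * Real.log q1 / P) + (q2.primeFactors.card : ℝ))

theorem st_MAIN5 (hM4 : ST_MAIN4) (hDP : ST_DP4) : ST_MAIN5 := by
  classical
  intro ε hε
  obtain ⟨C4, hM4⟩ := hM4 ε hε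
  obtain ⟨CD, κD, hCD, hκD, hDP⟩ := hDP ε hε
  obtain ⟨κ, hκ⟩ : ∃ κ : ℝ, κ = max κD (1 / ε) := ⟨_, rfl⟩
  have hκ1 : κD ≤ κ := by rw [hκ]; exact le_max_left _ _
  have hκ2 : 1 / ε ≤ κ := by rw [hκ]; exact le_max_right _ _
  obtain ⟨T, hT⟩ : ∃ T : ℝ, T = (2 : ℝ) ^ κD := ⟨_, rfl⟩
  have hT1 : 1 ≤ T := by rw [hT]; exact Real.one_le_rpow (by norm_num) hκD.le
  obtain ⟨C5, hC5⟩ : ∃ C5 : ℝ, C5 = max C4 0 + 2 * T * CD + 1 := ⟨_, rfl⟩
  have hC40 : 0 ≤ max C4 0 := le_max_right _ _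
  have hC4' : C4 ≤ max C4 0 := le_max_left _ _
  have hTC : 0 < 2 * T * CD := by positivity
  have hC50 : 0 ≤ C5 := by rw [hC5]; linarith
  refine ⟨C5, κ, ?_⟩
  intro N q1 q2 a P D hN hq1 hq2 hcop hcopa hNP hD1 hPD
  have hNr : (1 : ℝ) ≤ N := by exact_mod_cast hN
  have hN0 : (0 : ℝ) < N := by linarith
  have hq : 1 ≤ q1 * q2 := Nat.one_le_iff_ne_zero.mpr (by positivity)
  have hlog0 : 0 ≤ Real.log (N : ℝ) := Real.log_natCast_nonneg N
  have hL0 : 0 ≤ Real.log (q1 : ℝ) := Real.log_natCast_nonneg q1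
  have hE1 : 1 ≤ (N : ℝ) ^ ε := Real.one_le_rpow hNr hε.le
  have hP0 : (0 : ℝ) < P := by linarith
  have hD0 : 0 < D := by linarith
  have h4 := hM4 N q1 q2 a hN hq1 hq2 hcop hcopa
  have hRN : (((range N).filter (fun n => IsSquare (q1 * q2 * n + a))).card : ℝ) ≤ N := by
    have h1 : ((range N).filter (fun n => IsSquare (q1 * q2 * n + a))).card ≤ N := by
      calc _ ≤ (range N).card := card_filter_le _ _
        _ = N := card_range N
    exact_mod_cast h1
  have hfil : (q1 * q2).primeFactors.filter (fun p => p ≠ 2 ∧ p ≤ P) = PP (q1 * q2) P := by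
    ext p
    simp only [PP, OP, mem_filter, mem_erase]
    tauto
  rw [hfil] at hPD
  have hom0 : (0 : ℝ) ≤ (q2.primeFactors.card : ℝ) := by positivity
  have hDP' : (((range N).filter (fun n => IsSquare (q1 * q2 * n + a))).card : ℝ) ≤
      C5 * (D ^ κ * (N : ℝ) ^ ε + D * Real.log q1 / P + (q2.primeFactors.card : ℝ)) := by
    have hX0 : 0 ≤ D * Real.log q1 / P := by positivity
    rcases Nat.eq_zero_or_pos (PP (q1 * q2) P).card with h0 | h0
    · rw [h0, Nat.cast_zero, add_zero, mul_one] at hPD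
      have h1 : (N : ℝ) ≤ D ^ κ := by
        calc (N : ℝ) = ((N : ℝ) ^ ε) ^ (1 / ε) := by
              rw [← Real.rpow_mul hN0.le, mul_one_div_cancel hε.ne', Real.rpow_one]
          _ ≤ D ^ (1 / ε) := Real.rpow_le_rpow (by positivity) (hNP.trans hPD) (by positivity)
          _ ≤ D ^ κ := Real.rpow_le_rpow_of_exponent_le hD1 hκ2
      have h2 : D ^ κ ≤ D ^ κ * (N : ℝ) ^ ε := by
        have : 0 ≤ D ^ κ := by positivity
        nlinarith
      have h3 : (1 : ℝ) ≤ C5 := by rw [hC5]; linarith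
      have h5 : 0 ≤ D ^ κ * (N : ℝ) ^ ε + D * Real.log q1 / P + (q2.primeFactors.card : ℝ) := by
        positivity
      calc _ ≤ (N : ℝ) := hRN
        _ ≤ 1 * (D ^ κ * (N : ℝ) ^ ε + D * Real.log q1 / P + (q2.primeFactors.card : ℝ)) := by
          linarith
        _ ≤ _ := mul_le_mul_of_nonneg_right h3 h5
    · have h1 : (P : ℝ) ≤ 2 * D * ((PP (q1 * q2) P).card : ℝ) := by
        have h2 : (1 : ℝ) ≤ ((PP (q1 * q2) P).card : ℝ) := by exact_mod_cast h0
        calc (P : ℝ) ≤ D * (1 + ((PP (q1 * q2) P).card : ℝ)) := hPD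
          _ ≤ D * (((PP (q1 * q2) P).card : ℝ) + ((PP (q1 * q2) P).card : ℝ)) := by gcongr
          _ = _ := by ring
      have h2 := hDP N q1 q2 a P (2 * D) hN hq1 hq2 hcop hcopa hNP (by linarith) h1
      have h3 : (2 * D) ^ κD ≤ T * D ^ κ := by
        rw [Real.mul_rpow (by norm_num) hD0.le, ← hT]
        exact mul_le_mul_of_nonneg_left (Real.rpow_le_rpow_of_exponent_le hD1 hκ1) (by linarith)
      have hDκ : 0 ≤ D ^ κ * (N : ℝ) ^ ε := by positivity
      calc (((range N).filter (fun n => IsSquare (q1 * q2 * n + a))).card : ℝ)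
          ≤ CD * ((2 * D) ^ κD * (N : ℝ) ^ ε + 2 * D * Real.log q1 / P +
            (q2.primeFactors.card : ℝ)) := h2
        _ ≤ CD * ((T * D ^ κ) * (N : ℝ) ^ ε + 2 * D * Real.log q1 / P +
            (q2.primeFactors.card : ℝ)) := by gcongr
        _ ≤ CD * (2 * T * (D ^ κ * (N : ℝ) ^ ε) + 2 * T * (D * Real.log q1 / P) +
            2 * T * (q2.primeFactors.card : ℝ)) := by
          have h5 : (T * D ^ κ) * (N : ℝ) ^ ε ≤ 2 * T * (D ^ κ * (N : ℝ) ^ ε) := by nlinarith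
          have h6 : 2 * D * Real.log q1 / P ≤ 2 * T * (D * Real.log q1 / P) := by
            have : 2 * D * Real.log q1 / P = 2 * (D * Real.log q1 / P) := by ring
            rw [this]; nlinarith
          have h7 : (q2.primeFactors.card : ℝ) ≤ 2 * T * (q2.primeFactors.card : ℝ) := by
            nlinarith
          gcongr
        _ = 2 * T * CD * (D ^ κ * (N : ℝ) ^ ε + D * Real.log q1 / P +
            (q2.primeFactors.card : ℝ)) := by ring
        _ ≤ C5 * (D ^ κ * (N : ℝ) ^ ε + D * Real.log q1 / P + (q2.primeFactors.card : ℝ)) := by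
          apply mul_le_mul_of_nonneg_right _ (by positivity)
          rw [hC5]; linarith
  rcases min_choice (min (Real.sqrt N * ((q1 * q2 : ℕ) / (Nat.totient (q1 * q2) : ℝ)) +
        (N : ℝ) ^ ε * Real.sqrt (Real.log q1))
      ((1 + Real.log N) * (Real.sqrt N + Real.sqrt (Real.log q1))))
      (D ^ κ * (N : ℝ) ^ ε + D * Real.log q1 / P) with h | h
  · rw [h]
    refine h4.trans ?_
    apply mul_le_mul_of_nonneg_right
    · rw [hC5]; linarith
    · have h1 : 0 ≤ min (Real.sqrt N * ((q1 * q2 : ℕ) / (Nat.totient (q1 * q2) : ℝ)) +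
          (N : ℝ) ^ ε * Real.sqrt (Real.log q1))
        ((1 + Real.log N) * (Real.sqrt N + Real.sqrt (Real.log q1))) :=
        le_min (by positivity) (by positivity)
      linarith
  · rw [h]; exact hDP'

end Pool.Agent.Helper18.RD
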