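import Pool.Agent.Helper18.RD.All2
import Pool.Agent.Helper18.RD.MAIN5
import Pool.Agent.Helper30.RD3.DP4
import Pool.Agent.Helper30.RD3.BAD3
import Pool.Agent.Helper30.RD3.MLOW3
import Pool.Agent.Helper84.RD.GS
import Pool.Agent.Helper84.RD.SQR
import Pool.Agent.Helper58.RD.PGR
import Pool.Agent.Helper52.RD.PEL
import Pool.Agent.Helper12.RD.ENT
import Pool.Agent.Helper4.RD.END4
import Pool.Agent.Helper4.RD.LLB
import Pool.Agent.Helper52.RD.LLC

/-! Project RD: all forms together. -/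

set_option autoImplicit false

namespace Pool.Agent.Helper18.RD

theorem dp4 : ST_DP4 :=
  Pool.Agent.Helper30.RD3.st_DP4 ar
    (Pool.Agent.Helper30.RD3.st_BAD3 (st_W Pool.Agent.Helper97.RD.st_TR)
      Pool.Agent.Helper58.RD.st_BL)
    Pool.Agent.Helper97.RD.st_GT
    (Pool.Agent.Helper30.RD3.st_MLOW3 (st_LOW st_CS) (st_SUM st_PER)
      Pool.Agent.Helper95.RD.st_FIB)
    (Pool.Agent.Helper4.RD.st_END4 Pool.Agent.Helper64.RD.st_ENA
      (Pool.Agent.Helper12.RD.st_ENT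
        (Pool.Agent.Helper52.RD.st_PEL Pool.Agent.Helper84.RD.st_SQR
          Pool.Agent.Helper58.RD.st_PGR)))

/-- the weaker form of DP used in MAIN3 -/
theorem dp_of_dp4 (h : ST_DP4) : ST_DP := by
  intro ε hε
  obtain ⟨C, κ, hC, hκ, h⟩ := h ε hε
  refine ⟨C, κ, hC, hκ, ?_⟩
  intro N q1 q2 a P D hN hq1 hq2 hcop hcopa hNP hD hPD
  refine (h N q1 q2 a P D hN hq1 hq2 hcop hcopa hNP hD hPD).trans ?_
  have hNr : (1 : ℝ) ≤ N := by exact_mod_cast hN
  have h1 : (N : ℝ) ^ ε ≤ (N : ℝ) ^ (2 / 5 + ε) :=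
    Real.rpow_le_rpow_of_exponent_le hNr (by linarith)
  have hD0 : 0 < D := by linarith
  gcongr

theorem main5 : ST_MAIN5 :=
  st_MAIN5
    (st_MAIN4 main2
      (st_MAIN3 main2 (dp_of_dp4 dp4)
        (Pool.Agent.Helper84.RD.st_GS Pool.Agent.Helper37.DG.st_LSI)
        (Pool.Agent.Helper52.RD.st_LLC Pool.Agent.Helper4.RD.st_LLA Pool.Agent.Helper4.RD.st_LLB)))
    dp4

end Pool.Agent.Helper18.RD
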