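import Pool.Agent.Helper18.RD.Stmts

/-! Project RD: the final assembly from the rows. -/

set_option autoImplicit false

namespace Pool.Agent.Helper18.RD

open Finset

theorem st_MAIN (hAR : ST_AR) (hPL : ST_PL) (hBAD : ST_BAD) (hGT : ST_GT) (hMLOW : ST_MLOW)
    (hEND : ST_END) : ST_MAIN := by
  classical
  intro ε hε
  obtain ⟨c0, hc0, hPL⟩ := hPL
  obtain ⟨C1, hC1, hPL1⟩ := hPL ε hε
  obtain ⟨C2, hC2, hB⟩ := hBAD c0 ε hc0 hε
  obtain ⟨C3, hC3, hM⟩ := hMLOW c0 hc0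
  obtain ⟨C4, hC4, hE⟩ := hEND (ε / 2) (by positivity)
  obtain ⟨D, hD⟩ : ∃ D : ℝ, D = (1 + 80 / ε) ^ 40 := ⟨_, rfl⟩
  obtain ⟨M, hMd⟩ : ∃ M : ℝ, M = 41 ^ 40 := ⟨_, rfl⟩
  have hM0 : 0 < M := by rw [hMd]; positivity
  have hD0 : 0 < D := by rw [hD]; positivity
  refine ⟨2 * C1 + 4 * C2 + 2 * C3 * M + 4 * C3 * C4 * D + 3, ?_⟩
  obtain ⟨C, hC⟩ : ∃ C : ℝ, C = 2 * C1 + 4 * C2 + 2 * C3 * M + 4 * C3 * C4 * D + 3 := ⟨_, rfl⟩
  rw [← hC]
  intro N q1 q2 a hN hq1 hq2 hcop hcopa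
  have hp1 : 0 < C3 * M := by positivity
  have hp2 : 0 < C3 * C4 * D := by positivity
  have hCpos : 0 < C := by rw [hC]; linarith
  have hNr : (1 : ℝ) ≤ N := by exact_mod_cast hN
  have hN0 : (0 : ℝ) < N := by linarith
  have hq : 1 ≤ q1 * q2 := Nat.one_le_iff_ne_zero.mpr (by positivity)
  show ((SS N (q1 * q2) a).card : ℝ) ≤ _
  by_contra hcon
  push Not at hcon
  set R : ℝ := ((SS N (q1 * q2) a).card : ℝ) with hR
  have hRN : R ≤ N := by
    have h1 : (SS N (q1 * q2) a).card ≤ N := by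
      calc (SS N (q1 * q2) a).card ≤ (range N).card := card_filter_le _ _
        _ = N := card_range N
    rw [hR]; exact_mod_cast h1
  set A : ℝ := (N : ℝ) ^ (1 / 2 + ε) with hA
  set E : ℝ := (N : ℝ) ^ ε with hEdef
  have hE1 : 1 ≤ E := Real.one_le_rpow hNr hε.le
  have hAE : A = Real.sqrt N * E := by
    rw [hA, hEdef, Real.sqrt_eq_rpow, ← Real.rpow_add hN0]
  have hsqN : 1 ≤ Real.sqrt N := by rw [Real.one_le_sqrt]; exact hNr
  have hL0 : 0 ≤ Real.log (q1 : ℝ) := Real.log_natCast_nonneg q1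
  set s : ℝ := Real.sqrt (Real.log q1) with hs
  have hs0 : 0 ≤ s := Real.sqrt_nonneg _
  set om : ℝ := (q2.primeFactors.card : ℝ) with hom
  have hom0 : 0 ≤ om := by positivity
  set P : ℕ := ⌈Real.sqrt N + s⌉₊ with hP
  have hPl : Real.sqrt N + s ≤ P := Nat.le_ceil _
  have hPu : (P : ℝ) < Real.sqrt N + s + 1 := Nat.ceil_lt_add_one (by positivity)
  have hP1 : (1 : ℝ) ≤ P := by linarith
  have hNP : (N : ℝ) ≤ (P : ℝ) ^ 2 := by
    have h1 : Real.sqrt N ≤ P := by linarith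
    calc (N : ℝ) = Real.sqrt N ^ 2 := (Real.sq_sqrt hN0.le).symm
      _ ≤ (P : ℝ) ^ 2 := by gcongr
  have hLP : Real.log q1 ≤ (P : ℝ) ^ 2 := by
    have h1 : s ≤ P := by linarith
    calc Real.log q1 = s ^ 2 := (Real.sq_sqrt hL0).symm
      _ ≤ (P : ℝ) ^ 2 := by gcongr
  have hEP : E * P ≤ 2 * (A + E * s) := by
    have h1 : (P : ℝ) ≤ 2 * (Real.sqrt N + s) := by linarith
    calc E * P ≤ E * (2 * (Real.sqrt N + s)) := by gcongr
      _ = 2 * (A + E * s) := by rw [hAE]; ring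
  have hA1 : 1 ≤ A := Real.one_le_rpow hNr (by positivity)
  have hEs : 0 ≤ E * s := by positivity
  have hy : C * (E * P + om) < 2 * R := by
    have h1 : E * P + om ≤ 2 * (A + E * s + om) := by linarith
    calc C * (E * P + om) ≤ C * (2 * (A + E * s + om)) := by gcongr
      _ = 2 * (C * (A + E * s + om)) := by ring
      _ < 2 * R := by linarith
  have hEP1 : 1 ≤ E * P := by nlinarith
  have hPN : (P : ℝ) ≤ N := by
    have h1 : (P : ℝ) ≤ E * P := by nlinarith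
    have h2 : 2 * (E * P + om) ≤ C * (E * P + om) := by
      apply mul_le_mul_of_nonneg_right
      · rw [hC]; linarith
      · positivity
    linarith
  -- the points
  obtain ⟨S, e, c, d, k, w, hSS, hhalf, hdat⟩ := hAR N (q1 * q2) a hN hq hcopa
  have hhalf' : R ≤ 2 * (S.card : ℝ) := by rw [hR]; exact_mod_cast hhalf
  have hPLb : c0 * P / (1 + Real.log N) ≤ (PP (q1 * q2) P).card := by
    refine hPL1 N (q1 * q2) a P hN hq hcopa (by exact_mod_cast hNP) (by exact_mod_cast hPN) ?_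
    have h1 : C1 * E * P ≤ C / 2 * (E * P) := by
      have : C1 ≤ C / 2 := by rw [hC]; linarith
      calc C1 * E * P = C1 * (E * P) := by ring
        _ ≤ C / 2 * (E * P) := by gcongr
    have h2 : C / 2 * (E * P) ≤ C / 2 * (E * P + om) := by
      apply mul_le_mul_of_nonneg_left _ (by positivity); linarith
    show C1 * E * P ≤ R
    linarith
  have hSbig : C / 4 * (E * P + om) ≤ S.card := by linarith
  obtain ⟨b, hb1, hb2⟩ := hB N q1 q2 P S e c d k w hN hq1 hq2 hcop hdat (by exact_mod_cast hNP)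
    (by exact_mod_cast hPN) hLP (by
      have : C2 ≤ C / 4 := by rw [hC]; linarith
      calc C2 * ((N : ℝ) ^ ε * P + (q2.primeFactors.card : ℝ)) = C2 * (E * P + om) := rfl
        _ ≤ C / 4 * (E * P + om) := by gcongr
        _ ≤ S.card := hSbig) hPLb
  have hSpos : (0 : ℝ) < S.card := by
    have : 0 < C / 4 * (E * P + om) := by positivity
    linarith
  have hSne : S.Nonempty := by
    rw [← card_pos]; exact_mod_cast hSpos
  obtain ⟨T, hT1, hT2⟩ := hGT S (PP (q1 * q2) P) e (20 + 20) b hSne hdat.sgn hb2 hb1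
  have hmain := hM N (q1 * q2) P S e c d k w T hN (by exact_mod_cast hNP) hdat hPLb hT1 hT2
  have hend := hE N S c d k hN hdat.sub hdat.kap hdat.cd
  -- the final inequality
  set L : ℝ := 1 + Real.log N with hL
  have hlog0 : 0 ≤ Real.log (N : ℝ) := Real.log_natCast_nonneg N
  have hL1 : 1 ≤ L := by rw [hL]; linarith
  have hLa : L ≤ 41 * (N : ℝ) ^ ((1 : ℝ) / 40) := by
    have h1 := Real.log_le_rpow_div hN0.le (ε := 1 / 40) (by norm_num)
    have h2 : (1 : ℝ) ≤ (N : ℝ) ^ ((1 : ℝ) / 40) := Real.one_le_rpow hNr (by norm_num)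
    have h3 : (N : ℝ) ^ ((1 : ℝ) / 40) / (1 / 40) = 40 * (N : ℝ) ^ ((1 : ℝ) / 40) := by ring
    rw [hL]; linarith
  have hLa40 : L ^ 40 ≤ M * N := by
    rw [hMd]
    calc L ^ 40 ≤ (41 * (N : ℝ) ^ ((1 : ℝ) / 40)) ^ 40 := by gcongr
      _ = 41 ^ 40 * ((N : ℝ) ^ ((1 : ℝ) / 40)) ^ 40 := by rw [mul_pow]
      _ = 41 ^ 40 * N := by
        rw [← Real.rpow_natCast ((N : ℝ) ^ ((1 : ℝ) / 40)) 40, ← Real.rpow_mul hN0.le]
        norm_num
  have hLb : L ≤ (1 + 80 / ε) * (N : ℝ) ^ (ε / 80) := by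
    have h1 := Real.log_le_rpow_div hN0.le (ε := ε / 80) (by positivity)
    have h2 : (1 : ℝ) ≤ (N : ℝ) ^ (ε / 80) := Real.one_le_rpow hNr (by positivity)
    have h3 : (N : ℝ) ^ (ε / 80) / (ε / 80) = 80 / ε * (N : ℝ) ^ (ε / 80) := by
      field_simp
    rw [hL]; linarith
  have hLb40 : L ^ 40 ≤ D * (N : ℝ) ^ (ε / 2) := by
    calc L ^ 40 ≤ ((1 + 80 / ε) * (N : ℝ) ^ (ε / 80)) ^ 40 := by gcongr
      _ = D * ((N : ℝ) ^ (ε / 80)) ^ 40 := by rw [mul_pow, hD]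
      _ = D * (N : ℝ) ^ (ε / 2) := by
        rw [← Real.rpow_natCast ((N : ℝ) ^ (ε / 80)) 40, ← Real.rpow_mul hN0.le]
        congr 2
        push_cast
        ring
  have hNC : C < N := by
    have h1 : C * 1 ≤ C * (A + E * s + om) := by
      apply mul_le_mul_of_nonneg_left _ hCpos.le; linarith
    linarith
  have hsmall : C3 * L ^ 40 * ((S.card : ℝ) ^ 8 / (N : ℝ) ^ 2) ≤ (S.card : ℝ) ^ 8 / 2 := by
    have h1 : C3 * L ^ 40 ≤ (N : ℝ) ^ 2 / 2 := by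
      have h2 : C3 * L ^ 40 ≤ C3 * (M * N) := by gcongr
      have h3 : 2 * (C3 * M) ≤ N := by
        have : 2 * (C3 * M) ≤ C := by rw [hC]; linarith
        linarith
      have h4 : C3 * (M * N) ≤ (N : ℝ) ^ 2 / 2 := by
        have h5 : 2 * (C3 * M) * N ≤ (N : ℝ) * N := by gcongr
        have h6 : C3 * (M * N) = C3 * M * (N : ℝ) := by ring
        rw [h6, sq]
        linarith
      linarith
    have h7 : 0 ≤ (S.card : ℝ) ^ 8 / (N : ℝ) ^ 2 := by positivity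
    calc C3 * L ^ 40 * ((S.card : ℝ) ^ 8 / (N : ℝ) ^ 2)
        ≤ (N : ℝ) ^ 2 / 2 * ((S.card : ℝ) ^ 8 / (N : ℝ) ^ 2) := by gcongr
      _ = (S.card : ℝ) ^ 8 / 2 := by field_simp
  have hfin : (S.card : ℝ) ^ 8 / 2 ≤
      C3 * L ^ 40 * (C4 * (S.card : ℝ) ^ 7 * (N : ℝ) ^ (1 / 2 + ε / 2)) := by
    have h1 : C3 * L ^ 40 * ((MM S c d).card : ℝ) ≤
        C3 * L ^ 40 * (C4 * (S.card : ℝ) ^ 7 * (N : ℝ) ^ (1 / 2 + ε / 2)) := by gcongr
    have h2 : C3 * L ^ 40 * (((MM S c d).card : ℝ) + (S.card : ℝ) ^ 8 / (N : ℝ) ^ 2) =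
      C3 * L ^ 40 * ((MM S c d).card : ℝ) +
        C3 * L ^ 40 * ((S.card : ℝ) ^ 8 / (N : ℝ) ^ 2) := by ring
    rw [h2] at hmain
    linarith
  have hfin2 : (S.card : ℝ) ≤ 2 * (C3 * C4 * D) * A := by
    have h1 : C3 * L ^ 40 * (C4 * (S.card : ℝ) ^ 7 * (N : ℝ) ^ (1 / 2 + ε / 2)) ≤
        C3 * (D * (N : ℝ) ^ (ε / 2)) * (C4 * (S.card : ℝ) ^ 7 * (N : ℝ) ^ (1 / 2 + ε / 2)) := by
      gcongr
    have h2 : (N : ℝ) ^ (ε / 2) * (N : ℝ) ^ (1 / 2 + ε / 2) = A := by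
      rw [hA, ← Real.rpow_add hN0]; congr 1; ring
    have h3 : C3 * (D * (N : ℝ) ^ (ε / 2)) * (C4 * (S.card : ℝ) ^ 7 * (N : ℝ) ^ (1 / 2 + ε / 2)) =
        (C3 * C4 * D * A) * (S.card : ℝ) ^ 7 := by rw [← h2]; ring
    have h4 : (S.card : ℝ) * (S.card : ℝ) ^ 7 ≤ (2 * (C3 * C4 * D) * A) * (S.card : ℝ) ^ 7 := by
      have h5 : (S.card : ℝ) * (S.card : ℝ) ^ 7 = (S.card : ℝ) ^ 8 := by ring
      have h6 : (2 * (C3 * C4 * D) * A) * (S.card : ℝ) ^ 7 =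
        2 * ((C3 * C4 * D * A) * (S.card : ℝ) ^ 7) := by ring
      rw [h5, h6]
      linarith
    exact le_of_mul_le_mul_right h4 (by positivity)
  have hlast : C * A < 4 * (C3 * C4 * D) * A := by
    have h1 : C * A ≤ C * (A + E * s + om) := by
      apply mul_le_mul_of_nonneg_left _ hCpos.le; linarith
    linarith
  have hlast2 : 4 * (C3 * C4 * D) * A ≤ C * A := by
    apply mul_le_mul_of_nonneg_right _ (by positivity)
    rw [hC]; linarith
  linarith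

end Pool.Agent.Helper18.RD
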