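import Pool.Agent.Helper18.RD.Stmts2

/-! Project RD, second form: the final assembly from the rows. -/

set_option autoImplicit false

namespace Pool.Agent.Helper18.RD

open Finset

theorem st_MAIN2 (hAR : ST_AR) (hPL : ST_PL2) (hBAD : ST_BAD2) (hGT : ST_GT) (hMLOW : ST_MLOW)
    (hEND : ST_END2) : ST_MAIN2 := by
  classical
  obtain ⟨c0, C1, hc0, hC1, hPL1⟩ := hPL
  obtain ⟨C2, hC2, hB⟩ := hBAD c0 hc0
  obtain ⟨C3, hC3, hM⟩ := hMLOW c0 hc0
  obtain ⟨C4, hC4, hE⟩ := hEND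
  -- the final inequality fails for large `N`
  obtain ⟨N0, hN0⟩ : ∃ N0 : ℕ, ∀ N : ℕ, N0 ≤ N → 1 ≤ N →
      C3 * (1 + Real.log N) ^ 40 * (C4 * (N : ℝ) ^ (-(1 / 20) : ℝ) + 1 / (N : ℝ) ^ 2) < 1 := by
    have h1 : Filter.Tendsto (fun x : ℝ => C3 * (1 + Real.log x) ^ 40 *
        (C4 * x ^ (-(1 / 20) : ℝ) + 1 / x ^ 2)) Filter.atTop (nhds 0) := by
      have h2 : (fun x : ℝ => 1 + Real.log x) =o[Filter.atTop] (fun x : ℝ => x ^ (1 / 1600 : ℝ)) := by
        apply Asymptotics.IsLittleO.add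
        · rw [Asymptotics.isLittleO_const_left]
          right
          exact tendsto_norm_atTop_atTop.comp (tendsto_rpow_atTop (by norm_num))
        · exact isLittleO_log_rpow_atTop (by norm_num)
      have h3 : (fun x : ℝ => (1 + Real.log x) ^ 40) =O[Filter.atTop]
          (fun x : ℝ => x ^ (1 / 40 : ℝ)) := by
        have h4 := (h2.isBigO.pow 40)
        refine h4.trans (Filter.EventuallyEq.isBigO ?_)
        filter_upwards [Filter.eventually_gt_atTop 0] with x hx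
        rw [← Real.rpow_natCast, ← Real.rpow_mul hx.le]
        norm_num
      have h5 : (fun x : ℝ => C4 * x ^ (-(1 / 20) : ℝ) + 1 / x ^ 2) =O[Filter.atTop]
          (fun x : ℝ => x ^ (-(1 / 20) : ℝ)) := by
        apply Asymptotics.IsBigO.add
        · exact (Asymptotics.isBigO_refl _ _).const_mul_left C4
        · apply Asymptotics.IsBigO.of_bound 1
          filter_upwards [Filter.eventually_ge_atTop 1] with x hx
          have hx0 : 0 < x := by linarith
          rw [one_mul, Real.norm_of_nonneg (by positivity), Real.norm_of_nonneg (by positivity)]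
          have : 1 / x ^ 2 = x ^ (-2 : ℝ) := by
            rw [Real.rpow_neg hx0.le, one_div]
            norm_num
          rw [this]
          exact Real.rpow_le_rpow_of_exponent_le hx (by norm_num)
      have h6 : (fun x : ℝ => C3 * (1 + Real.log x) ^ 40 *
          (C4 * x ^ (-(1 / 20) : ℝ) + 1 / x ^ 2)) =O[Filter.atTop]
          (fun x : ℝ => x ^ (1 / 40 : ℝ) * x ^ (-(1 / 20) : ℝ)) :=
        (h3.const_mul_left C3).mul h5
      have h7 : Filter.Tendsto (fun x : ℝ => x ^ (1 / 40 : ℝ) * x ^ (-(1 / 20) : ℝ))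
          Filter.atTop (nhds 0) := by
        have h8 : Filter.Tendsto (fun x : ℝ => x ^ (-(1 / 40) : ℝ)) Filter.atTop (nhds 0) :=
          tendsto_rpow_neg_atTop (by norm_num)
        refine h8.congr' ?_
        filter_upwards [Filter.eventually_gt_atTop 0] with x hx
        rw [← Real.rpow_add hx]
        norm_num
      exact h6.trans_tendsto h7
    have h9 := (h1.comp tendsto_natCast_atTop_atTop).eventually (gt_mem_nhds one_pos)
    obtain ⟨N0, hN0⟩ := Filter.eventually_atTop.mp h9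
    exact ⟨N0, fun N hN _ => hN0 N hN⟩
  obtain ⟨C, hC⟩ : ∃ C : ℝ, C = 2 * C1 + 4 * C2 + N0 + 4 := ⟨_, rfl⟩
  have hN0' : (0 : ℝ) ≤ N0 := Nat.cast_nonneg _
  refine ⟨C, ?_⟩
  intro N q1 q2 a hN hq1 hq2 hcop hcopa
  have hCpos : 0 < C := by rw [hC]; linarith
  have hNr : (1 : ℝ) ≤ N := by exact_mod_cast hN
  have hN0p : (0 : ℝ) < N := by linarith
  have hq : 1 ≤ q1 * q2 := Nat.one_le_iff_ne_zero.mpr (by positivity)
  show ((SS N (q1 * q2) a).card : ℝ) ≤ _
  by_contra hcon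
  push Not at hcon
  obtain ⟨R, hR⟩ : ∃ R : ℝ, R = ((SS N (q1 * q2) a).card : ℝ) := ⟨_, rfl⟩
  rw [← hR] at hcon
  have hRN : R ≤ N := by
    have h1 : (SS N (q1 * q2) a).card ≤ N := by
      calc (SS N (q1 * q2) a).card ≤ (range N).card := card_filter_le _ _
        _ = N := card_range N
    rw [hR]; exact_mod_cast h1
  have hlog0 : 0 ≤ Real.log (N : ℝ) := Real.log_natCast_nonneg N
  obtain ⟨E, hE'⟩ : ∃ E : ℝ, E = 1 + Real.log N := ⟨_, rfl⟩
  have hE1 : 1 ≤ E := by rw [hE']; linarith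
  have hsqN : 1 ≤ Real.sqrt N := by rw [Real.one_le_sqrt]; exact hNr
  have hL0 : 0 ≤ Real.log (q1 : ℝ) := Real.log_natCast_nonneg q1
  obtain ⟨s, hs⟩ : ∃ s : ℝ, s = Real.sqrt (Real.log q1) := ⟨_, rfl⟩
  have hs0 : 0 ≤ s := by rw [hs]; exact Real.sqrt_nonneg _
  obtain ⟨om, hom⟩ : ∃ om : ℝ, om = (q2.primeFactors.card : ℝ) := ⟨_, rfl⟩
  have hom0 : 0 ≤ om := by rw [hom]; positivity
  obtain ⟨P, hP⟩ : ∃ P : ℕ, P = ⌈Real.sqrt N + s⌉₊ := ⟨_, rfl⟩
  have hPl : Real.sqrt N + s ≤ P := by rw [hP]; exact Nat.le_ceil _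
  have hPu : (P : ℝ) < Real.sqrt N + s + 1 := by
    rw [hP]; exact Nat.ceil_lt_add_one (by positivity)
  have hP1 : (1 : ℝ) ≤ P := by linarith
  have hNP : (N : ℝ) ≤ (P : ℝ) ^ 2 := by
    have h1 : Real.sqrt N ≤ P := by linarith
    calc (N : ℝ) = Real.sqrt N ^ 2 := (Real.sq_sqrt hN0p.le).symm
      _ ≤ (P : ℝ) ^ 2 := by gcongr
  have hLP : Real.log q1 ≤ (P : ℝ) ^ 2 := by
    have h1 : s ≤ P := by linarith
    calc Real.log q1 = s ^ 2 := by rw [hs]; exact (Real.sq_sqrt hL0).symm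
      _ ≤ (P : ℝ) ^ 2 := by gcongr
  have hEP : E * P ≤ 2 * (E * (Real.sqrt N + s)) := by
    have h1 : (P : ℝ) ≤ 2 * (Real.sqrt N + s) := by linarith
    calc E * P ≤ E * (2 * (Real.sqrt N + s)) := by gcongr
      _ = 2 * (E * (Real.sqrt N + s)) := by ring
  have hEP1 : (P : ℝ) ≤ E * P := by nlinarith
  rw [← hE', ← hs, ← hom] at hcon
  have hy : C * (E * P + om) < 2 * R := by
    have h1 : E * P + om ≤ 2 * (E * (Real.sqrt N + s) + om) := by linarith
    calc C * (E * P + om) ≤ C * (2 * (E * (Real.sqrt N + s) + om)) := by gcongr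
      _ = 2 * (C * (E * (Real.sqrt N + s) + om)) := by ring
      _ < 2 * R := by linarith
  have hposEP : 0 ≤ E * P + om := by positivity
  have hCge : 4 * (E * P + om) ≤ C * (E * P + om) := by
    apply mul_le_mul_of_nonneg_right _ hposEP
    rw [hC]; linarith
  have hPN : (P : ℝ) ≤ N := by linarith
  have hNC : (N0 : ℝ) ≤ N := by
    have h1 : C * 1 ≤ C * (E * (Real.sqrt N + s) + om) := by
      apply mul_le_mul_of_nonneg_left _ hCpos.le
      have : 1 ≤ E * (Real.sqrt N + s) := by nlinarith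
      linarith
    have h2 : (N0 : ℝ) ≤ C := by rw [hC]; linarith
    linarith
  -- the points
  obtain ⟨S, e, c, d, k, w, hSS, hhalf, hdat⟩ := hAR N (q1 * q2) a hN hq hcopa
  have hhalf' : R ≤ 2 * (S.card : ℝ) := by rw [hR]; exact_mod_cast hhalf
  have hPLb : c0 * P / (1 + Real.log N) ≤ (PP (q1 * q2) P).card := by
    refine hPL1 N (q1 * q2) a P hN hq hcopa (by exact_mod_cast hNP) (by exact_mod_cast hPN) ?_
    have h1 : C1 * E * P ≤ C / 2 * (E * P) := by
      have : C1 ≤ C / 2 := by rw [hC]; linarith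
      calc C1 * E * P = C1 * (E * P) := by ring
        _ ≤ C / 2 * (E * P) := by gcongr
    have h2 : C / 2 * (E * P) ≤ C / 2 * (E * P + om) := by
      apply mul_le_mul_of_nonneg_left _ (by positivity); linarith
    rw [← hE', ← hR]
    linarith
  have hSbig : C / 4 * (E * P + om) ≤ S.card := by linarith
  have hSP : (P : ℝ) ≤ S.card := by
    have : C / 4 * (E * P + om) = C * (E * P + om) / 4 := by ring
    linarith
  obtain ⟨b, hb1, hb2⟩ := hB N q1 q2 P S e c d k w hN hq1 hq2 hcop hdat (by exact_mod_cast hNP)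
    (by exact_mod_cast hPN) hLP (by
      have : C2 ≤ C / 4 := by rw [hC]; linarith
      rw [← hE', ← hom]
      calc C2 * (E * P + om) ≤ C / 4 * (E * P + om) := by gcongr
        _ ≤ S.card := hSbig) hPLb
  have hSpos : (0 : ℝ) < S.card := by linarith
  have hSne : S.Nonempty := by
    rw [← card_pos]; exact_mod_cast hSpos
  obtain ⟨T, hT1, hT2⟩ := hGT S (PP (q1 * q2) P) e (20 + 20) b hSne hdat.sgn hb2 hb1
  have hmain := hM N (q1 * q2) P S e c d k w T hN (by exact_mod_cast hNP) hdat hPLb hT1 hT2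
  have hNS : N ≤ S.card ^ 2 := by
    have h1 : (N : ℝ) ≤ (S.card : ℝ) ^ 2 := by
      calc (N : ℝ) ≤ (P : ℝ) ^ 2 := hNP
        _ ≤ (S.card : ℝ) ^ 2 := by gcongr
    exact_mod_cast h1
  have hend := hE N S c d k hN hdat.sub hdat.kap hNS hdat.cd
  have hfin := hN0 N (by exact_mod_cast hNC) hN
  have h8 : (0 : ℝ) < (S.card : ℝ) ^ 8 := by positivity
  have h9 : (S.card : ℝ) ^ 8 ≤ C3 * (1 + Real.log N) ^ 40 *
      (C4 * (N : ℝ) ^ (-(1 / 20) : ℝ) + 1 / (N : ℝ) ^ 2) * (S.card : ℝ) ^ 8 := by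
    calc (S.card : ℝ) ^ 8 ≤ C3 * (1 + Real.log N) ^ 40 *
        (((MM S c d).card : ℝ) + (S.card : ℝ) ^ 8 / (N : ℝ) ^ 2) := hmain
      _ ≤ C3 * (1 + Real.log N) ^ 40 *
        (C4 * (S.card : ℝ) ^ 8 * (N : ℝ) ^ (-(1 / 20) : ℝ) +
          (S.card : ℝ) ^ 8 / (N : ℝ) ^ 2) := by gcongr
      _ = _ := by ring
  have h10 : C3 * (1 + Real.log N) ^ 40 *
      (C4 * (N : ℝ) ^ (-(1 / 20) : ℝ) + 1 / (N : ℝ) ^ 2) * (S.card : ℝ) ^ 8 <
      1 * (S.card : ℝ) ^ 8 := mul_lt_mul_of_pos_right hfin h8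
  linarith

end Pool.Agent.Helper18.RD
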