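import Pool.Agent.Helper18.RD.Stmts3

/-! Project RD, third form: the final assembly from the rows. -/

set_option autoImplicit false

namespace Pool.Agent.Helper18.RD

open Finset

theorem st_MAIN3 (hM2 : ST_MAIN2) (hDP : ST_DP) (hGS : ST_GS) (hLLC : ST_LLC) : ST_MAIN3 := by
  intro ε hε
  obtain ⟨C2, hM2⟩ := hM2
  obtain ⟨CD, κ, hCD, hκ, hDP⟩ := hDP (1 / 20) (by norm_num)
  obtain ⟨CG, hCG, hGS⟩ := hGS
  obtain ⟨η, hη0, hη1, hη2, hη3⟩ : ∃ η : ℝ, 0 < η ∧ η < 1 ∧ η ≤ 2 * ε ∧ η * κ ≤ 1 / 10 := by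
    refine ⟨min (min (1 / 2) (2 * ε)) (1 / (10 * κ)), ?_, ?_, ?_, ?_⟩
    · apply lt_min (lt_min (by norm_num) (by positivity)) (by positivity)
    · calc min (min (1 / 2) (2 * ε)) (1 / (10 * κ)) ≤ 1 / 2 :=
            (min_le_left _ _).trans (min_le_left _ _)
        _ < 1 := by norm_num
    · exact (min_le_left _ _).trans (min_le_right _ _)
    · calc min (min (1 / 2) (2 * ε)) (1 / (10 * κ)) * κ ≤ 1 / (10 * κ) * κ :=
            mul_le_mul_of_nonneg_right (min_le_right _ _) hκ.le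
        _ = 1 / 10 := by field_simp
  obtain ⟨c, hc, hLL⟩ := hLLC η hη0 hη1
  obtain ⟨C2', hC2'⟩ : ∃ x : ℝ, x = max C2 0 := ⟨_, rfl⟩
  have hC2p : 0 ≤ C2' := by rw [hC2']; exact le_max_right _ _
  refine ⟨2 * CD + 4 * CG / c + 2 * C2' * (1 + 1 / ε), ?_⟩
  intro N q1 q2 a hN hq1 hq2 hcop hcopa
  have hNr : (1 : ℝ) ≤ N := by exact_mod_cast hN
  have hN0 : (0 : ℝ) < N := by linarith
  have hq : 1 ≤ q1 * q2 := Nat.one_le_iff_ne_zero.mpr (by positivity)
  have hqr : (0 : ℝ) < ((q1 * q2 : ℕ) : ℝ) := by exact_mod_cast hq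
  have hφ : (0 : ℝ) < (Nat.totient (q1 * q2) : ℝ) := by
    exact_mod_cast Nat.totient_pos.mpr hq
  have hφle : (Nat.totient (q1 * q2) : ℝ) ≤ ((q1 * q2 : ℕ) : ℝ) := by
    exact_mod_cast Nat.totient_le _
  obtain ⟨g, hg⟩ : ∃ g : ℝ, g = ((q1 * q2 : ℕ) : ℝ) / (Nat.totient (q1 * q2) : ℝ) := ⟨_, rfl⟩
  have hg1 : 1 ≤ g := by rw [hg, le_div_iff₀ hφ, one_mul]; exact hφle
  obtain ⟨R, hR⟩ : ∃ R : ℝ, R = ((SS N (q1 * q2) a).card : ℝ) := ⟨_, rfl⟩
  obtain ⟨om, hom⟩ : ∃ om : ℝ, om = (q2.primeFactors.card : ℝ) := ⟨_, rfl⟩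
  obtain ⟨L, hLdef⟩ : ∃ L : ℝ, L = Real.log q1 := ⟨_, rfl⟩
  have hL0 : 0 ≤ L := by rw [hLdef]; exact Real.log_natCast_nonneg q1
  have hom0 : 0 ≤ om := by rw [hom]; positivity
  have hsq1 : 1 ≤ Real.sqrt N := by rw [Real.one_le_sqrt]; exact hNr
  have hE1 : 1 ≤ (N : ℝ) ^ ε := Real.one_le_rpow hNr hε.le
  show ((SS N (q1 * q2) a).card : ℝ) ≤ _
  rw [← hg, ← hR, ← hom, ← hLdef]
  have hT1 : 0 ≤ Real.sqrt N * g := by positivity
  have hT2 : 0 ≤ (N : ℝ) ^ ε * Real.sqrt L := by positivity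
  have hcp : 0 < 4 * CG / c := by positivity
  have hce : 0 ≤ 2 * C2' * (1 + 1 / ε) := by positivity
  obtain ⟨Ct, hCt⟩ : ∃ Ct : ℝ, Ct = 2 * CD + 4 * CG / c + 2 * C2' * (1 + 1 / ε) := ⟨_, rfl⟩
  rw [← hCt]
  have hCtp : 0 < Ct := by rw [hCt]; linarith
  rcases lt_or_ge (N : ℝ) L with hNL | hLN
  · -- large `log q1`: MAIN2
    have h1 : R ≤ C2 * ((1 + Real.log N) * (Real.sqrt N + Real.sqrt L) + om) := by
      rw [hR, hLdef, hom]; exact hM2 N q1 q2 a hN hq1 hq2 hcop hcopa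
    have hlog0 : 0 ≤ Real.log (N : ℝ) := Real.log_natCast_nonneg N
    have h2 : Real.sqrt N ≤ Real.sqrt L := Real.sqrt_le_sqrt hNL.le
    have h3 : 1 + Real.log N ≤ (1 + 1 / ε) * (N : ℝ) ^ ε := by
      have h4 := Real.log_le_rpow_div hN0.le hε
      have h5 : (N : ℝ) ^ ε / ε = 1 / ε * (N : ℝ) ^ ε := by ring
      rw [h5] at h4
      linarith
    have hX0 : 0 ≤ (1 + Real.log N) * (Real.sqrt N + Real.sqrt L) + om := by positivity
    calc R ≤ C2 * ((1 + Real.log N) * (Real.sqrt N + Real.sqrt L) + om) := h1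
      _ ≤ C2' * ((1 + Real.log N) * (Real.sqrt N + Real.sqrt L) + om) := by
        apply mul_le_mul_of_nonneg_right _ hX0
        rw [hC2']; exact le_max_left _ _
      _ ≤ C2' * (((1 + 1 / ε) * (N : ℝ) ^ ε) * (Real.sqrt L + Real.sqrt L) + om) := by gcongr
      _ = 2 * C2' * (1 + 1 / ε) * ((N : ℝ) ^ ε * Real.sqrt L) + C2' * om := by ring
      _ ≤ Ct * ((N : ℝ) ^ ε * Real.sqrt L) + Ct * om := by
        have h6 : 2 * C2' * (1 + 1 / ε) ≤ Ct := by rw [hCt]; linarith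
        have h7 : C2' ≤ Ct := by
          have h8 : 0 ≤ 1 / ε := by positivity
          have h9 : C2' ≤ 2 * C2' * (1 + 1 / ε) := by nlinarith
          linarith
        gcongr
      _ ≤ Ct * (Real.sqrt N * g + (N : ℝ) ^ ε * Real.sqrt L + om) := by nlinarith
  · obtain ⟨Q, hQ⟩ : ∃ Q : ℕ, Q = ⌈Real.sqrt N⌉₊ := ⟨_, rfl⟩
    have hQl : Real.sqrt N ≤ Q := by rw [hQ]; exact Nat.le_ceil _
    have hQu : (Q : ℝ) < Real.sqrt N + 1 := by rw [hQ]; exact Nat.ceil_lt_add_one (by positivity)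
    have hQ1 : (1 : ℝ) ≤ Q := by linarith
    have hQ0 : (0 : ℝ) < Q := by linarith
    have hQ1n : 1 ≤ Q := by exact_mod_cast hQ1
    have hQ2 : (Q : ℝ) ≤ 2 * Real.sqrt N := by linarith
    have hNQ : (N : ℝ) ≤ (Q : ℝ) ^ 2 := by
      calc (N : ℝ) = Real.sqrt N ^ 2 := (Real.sq_sqrt hN0.le).symm
        _ ≤ (Q : ℝ) ^ 2 := by gcongr
    rcases le_or_gt ((PP (q1 * q2) Q).card : ℝ) ((Q : ℝ) ^ (1 - η)) with hfew | hmany
    · -- few primes: the sieve
      have h1 := hLL (q1 * q2) Q hq hQ1n hfew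
      have h2 := hGS N (q1 * q2) a Q hN hQ1n hcopa
      have h3 : c * ((Q : ℝ) * ((Nat.totient (q1 * q2) : ℝ) / ((q1 * q2 : ℕ) : ℝ))) * R ≤
          CG * (2 * (Q : ℝ) ^ 2) := by
        calc c * ((Q : ℝ) * ((Nat.totient (q1 * q2) : ℝ) / ((q1 * q2 : ℕ) : ℝ))) * R
            ≤ (∑ r ∈ RR (q1 * q2) Q, gg r) * R := by
              apply mul_le_mul_of_nonneg_right h1
              rw [hR]; positivity
          _ ≤ CG * ((N : ℝ) + (Q : ℝ) ^ 2) := by rw [hR]; exact h2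
          _ ≤ CG * (2 * (Q : ℝ) ^ 2) := by gcongr; linarith
      have h4 : (Nat.totient (q1 * q2) : ℝ) / ((q1 * q2 : ℕ) : ℝ) = 1 / g := by
        rw [hg]; field_simp
      rw [h4] at h3
      have hg0 : 0 < g := by linarith
      have h5 : R ≤ 2 * CG / c * Q * g := by
        have h6 : c * ((Q : ℝ) * (1 / g)) * R = (c * Q / g) * R := by ring
        rw [h6] at h3
        have h7 : 0 < c * Q / g := by positivity
        have h8 : R = (c * Q / g) * R / (c * Q / g) := by field_simp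
        rw [h8]
        calc (c * Q / g) * R / (c * Q / g) ≤ CG * (2 * (Q : ℝ) ^ 2) / (c * Q / g) := by gcongr
          _ = 2 * CG / c * Q * g := by field_simp
      calc R ≤ 2 * CG / c * Q * g := h5
        _ ≤ 2 * CG / c * (2 * Real.sqrt N) * g := by gcongr
        _ = 4 * CG / c * (Real.sqrt N * g) := by ring
        _ ≤ Ct * (Real.sqrt N * g) := by
          apply mul_le_mul_of_nonneg_right _ hT1
          rw [hCt]; linarith
        _ ≤ Ct * (Real.sqrt N * g + (N : ℝ) ^ ε * Real.sqrt L + om) := by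
          apply mul_le_mul_of_nonneg_left _ hCtp.le; linarith
    · -- many primes: DP
      have hD1 : 1 ≤ (Q : ℝ) ^ η := Real.one_le_rpow hQ1 hη0.le
      have hQs : (Q : ℝ) ^ η * (Q : ℝ) ^ (1 - η) = Q := by
        rw [← Real.rpow_add hQ0]; norm_num
      have h1 := hDP N q1 q2 a Q ((Q : ℝ) ^ η) hN hq1 hq2 hcop hcopa (by
        calc (N : ℝ) ^ (1 / 20 : ℝ) ≤ (N : ℝ) ^ (1 / 2 : ℝ) :=
              Real.rpow_le_rpow_of_exponent_le hNr (by norm_num)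
          _ = Real.sqrt N := (Real.sqrt_eq_rpow _).symm
          _ ≤ Q := hQl) hD1 (by
        calc (Q : ℝ) = (Q : ℝ) ^ η * (Q : ℝ) ^ (1 - η) := hQs.symm
          _ ≤ (Q : ℝ) ^ η * ((PP (q1 * q2) Q).card : ℝ) := by gcongr)
      rw [← hR, ← hLdef, ← hom] at h1
      have hQη : ∀ t : ℝ, 0 ≤ t → t ≤ 1 → (Q : ℝ) ^ t ≤ 2 * (N : ℝ) ^ (t / 2) := by
        intro t ht0 ht1
        calc (Q : ℝ) ^ t ≤ (2 * Real.sqrt N) ^ t := Real.rpow_le_rpow hQ0.le hQ2 ht0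
          _ = 2 ^ t * Real.sqrt N ^ t := Real.mul_rpow (by norm_num) (Real.sqrt_nonneg _)
          _ ≤ 2 ^ (1 : ℝ) * Real.sqrt N ^ t := by
            apply mul_le_mul_of_nonneg_right _ (by positivity)
            exact Real.rpow_le_rpow_of_exponent_le (by norm_num) ht1
          _ = 2 * (N : ℝ) ^ (t / 2) := by
            rw [Real.sqrt_eq_rpow, ← Real.rpow_mul hN0.le, Real.rpow_one]
            congr 2; ring
      have h2 : ((Q : ℝ) ^ η) ^ κ * (N : ℝ) ^ (2 / 5 + 1 / 20 : ℝ) ≤ 2 * (Real.sqrt N * g) := by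
        have h3 : ((Q : ℝ) ^ η) ^ κ = (Q : ℝ) ^ (η * κ) := (Real.rpow_mul hQ0.le _ _).symm
        rw [h3]
        calc (Q : ℝ) ^ (η * κ) * (N : ℝ) ^ (2 / 5 + 1 / 20 : ℝ)
            ≤ 2 * (N : ℝ) ^ (η * κ / 2) * (N : ℝ) ^ (2 / 5 + 1 / 20 : ℝ) := by
              gcongr
              exact hQη _ (by positivity) (by linarith)
          _ = 2 * (N : ℝ) ^ (η * κ / 2 + (2 / 5 + 1 / 20) : ℝ) := by
            rw [mul_assoc, ← Real.rpow_add hN0]
          _ ≤ 2 * (N : ℝ) ^ (1 / 2 : ℝ) := by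
            apply mul_le_mul_of_nonneg_left _ (by norm_num)
            exact Real.rpow_le_rpow_of_exponent_le hNr (by linarith)
          _ = 2 * (Real.sqrt N * 1) := by rw [Real.sqrt_eq_rpow, mul_one]
          _ ≤ 2 * (Real.sqrt N * g) := by gcongr
      have h4 : (Q : ℝ) ^ η * L / Q ≤ 2 * ((N : ℝ) ^ ε * Real.sqrt L) := by
        have h5 : L ≤ Real.sqrt L * Q := by
          have h6 : Real.sqrt L ≤ Q := by
            calc Real.sqrt L ≤ Real.sqrt N := Real.sqrt_le_sqrt hLN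
              _ ≤ Q := hQl
          calc L = Real.sqrt L * Real.sqrt L := (Real.mul_self_sqrt hL0).symm
            _ ≤ Real.sqrt L * Q := by gcongr
        calc (Q : ℝ) ^ η * L / Q ≤ (Q : ℝ) ^ η * (Real.sqrt L * Q) / Q := by gcongr
          _ = (Q : ℝ) ^ η * Real.sqrt L := by field_simp
          _ ≤ 2 * (N : ℝ) ^ (η / 2) * Real.sqrt L := by
            gcongr
            exact hQη _ hη0.le hη1.le
          _ ≤ 2 * (N : ℝ) ^ ε * Real.sqrt L := by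
            gcongr
            linarith
          _ = 2 * ((N : ℝ) ^ ε * Real.sqrt L) := by ring
      calc R ≤ CD * (((Q : ℝ) ^ η) ^ κ * (N : ℝ) ^ (2 / 5 + 1 / 20 : ℝ) +
            (Q : ℝ) ^ η * L / Q + om) := h1
        _ ≤ CD * (2 * (Real.sqrt N * g) + 2 * ((N : ℝ) ^ ε * Real.sqrt L) + 2 * om) := by
          gcongr
          linarith
        _ = 2 * CD * (Real.sqrt N * g + (N : ℝ) ^ ε * Real.sqrt L + om) := by ring
        _ ≤ Ct * (Real.sqrt N * g + (N : ℝ) ^ ε * Real.sqrt L + om) := by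
          apply mul_le_mul_of_nonneg_right _ (by positivity)
          rw [hCt]; linarith

end Pool.Agent.Helper18.RD
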