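import Pool.Agent.Helper18.RD.MAIN3

/-! Project RD: the two forms in one bound. -/

set_option autoImplicit false

namespace Pool.Agent.Helper18.RD

open Finset

/-- MAIN4 -/
def ST_MAIN4 : Prop := ∀ ε : ℝ, 0 < ε → ∃ C : ℝ, ∀ N q1 q2 a : ℕ, 1 ≤ N → 1 ≤ q1 → 1 ≤ q2 →
  Nat.Coprime q1 q2 → Nat.Coprime (q1 * q2) a →
  (((range N).filter (fun n => IsSquare (q1 * q2 * n + a))).card : ℝ) ≤
    C * (min (Real.sqrt N * ((q1 * q2 : ℕ) / (Nat.totient (q1 * q2) : ℝ)) +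
        (N : ℝ) ^ ε * Real.sqrt (Real.log q1))
      ((1 + Real.log N) * (Real.sqrt N + Real.sqrt (Real.log q1))) + (q2.primeFactors.card : ℝ))

theorem st_MAIN4 (hM2 : ST_MAIN2) (hM3 : ST_MAIN3) : ST_MAIN4 := by
  intro ε hε
  obtain ⟨C2, hM2⟩ := hM2
  obtain ⟨C3, hM3⟩ := hM3 ε hε
  refine ⟨max (max C2 C3) 0, ?_⟩
  intro N q1 q2 a hN hq1 hq2 hcop hcopa
  have hNr : (1 : ℝ) ≤ N := by exact_mod_cast hN
  have hq : 1 ≤ q1 * q2 := Nat.one_le_iff_ne_zero.mpr (by positivity)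
  have hlog0 : 0 ≤ Real.log (N : ℝ) := Real.log_natCast_nonneg N
  have h2 := hM2 N q1 q2 a hN hq1 hq2 hcop hcopa
  have h3 := hM3 N q1 q2 a hN hq1 hq2 hcop hcopa
  have hC0 : 0 ≤ max (max C2 C3) 0 := le_max_right _ _
  have hC2 : C2 ≤ max (max C2 C3) 0 := (le_max_left _ _).trans (le_max_left _ _)
  have hC3 : C3 ≤ max (max C2 C3) 0 := (le_max_right _ _).trans (le_max_left _ _)
  rcases min_choice (Real.sqrt N * ((q1 * q2 : ℕ) / (Nat.totient (q1 * q2) : ℝ)) +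
        (N : ℝ) ^ ε * Real.sqrt (Real.log q1))
      ((1 + Real.log N) * (Real.sqrt N + Real.sqrt (Real.log q1))) with h | h
  · rw [h]
    refine h3.trans ?_
    apply mul_le_mul_of_nonneg_right hC3
    positivity
  · rw [h]
    refine h2.trans ?_
    apply mul_le_mul_of_nonneg_right hC2
    positivity

end Pool.Agent.Helper18.RD
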