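import Mathlib

/-! Project RD (MP_b7477f_nt, squares in progressions: a small part of `q` free, the rest with few
prime factors): definitions and rows. -/

set_option autoImplicit false

namespace Pool.Agent.Helper18.RD

open Finset

/-- the `n < N` for which `q n + a` is a square -/
def SS (N q a : ℕ) : Finset ℕ := (range N).filter (fun n => IsSquare (q * n + a))

/-- the root -/
def mm (q a n : ℕ) : ℕ := Nat.sqrt (q * n + a)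

/-- odd prime factors of `q` -/
def OP (q : ℕ) : Finset ℕ := q.primeFactors.erase 2

/-- the exact power of `l` in `q` -/
def pw (q l : ℕ) : ℕ := l ^ q.factorization l

/-- its logarithm -/
noncomputable def wt (q l : ℕ) : ℝ := Real.log (pw q l)

/-- `2` for even `q`, else `1` -/
def kap (q : ℕ) : ℕ := if 2 ∣ q then 2 else 1

/-- half the power of `2` in `q` (`1` for odd `q`) -/
def EE (q : ℕ) : ℕ := 2 ^ (q.factorization 2 - 1)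

/-- the sign of `n` at `l`, with base point `b` -/
def sg (q a b n l : ℕ) : ℤ := if (pw q l : ℤ) ∣ (mm q a n : ℤ) - mm q a b then 1 else -1

/-- the part of `q` dividing the difference of the roots -/
def uu (q a b n n' : ℕ) : ℕ :=
  EE q * ∏ l ∈ (OP q).filter (fun l => sg q a b n l = sg q a b n' l), pw q l

/-- the part of `q` dividing the sum of the roots -/
def vv (q a b n n' : ℕ) : ℕ :=
  ∏ l ∈ (OP q).filter (fun l => sg q a b n l ≠ sg q a b n' l), pw q l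

/-- cofactor of the difference -/
def cc (q a b n n' : ℕ) : ℤ := ((mm q a n : ℤ) - mm q a n') / (uu q a b n n' : ℤ)

/-- cofactor of the sum -/
def dd (q a b n n' : ℕ) : ℤ := ((mm q a n : ℤ) + mm q a n') / (vv q a b n n' : ℤ)

/-- hypotheses on the progression and three points of it -/
structure Hyp (q a b n n' : ℕ) : Prop where
  q1 : 1 ≤ q
  cop : Nat.Coprime q a
  hb : IsSquare (q * b + a)
  hn : IsSquare (q * n + a)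
  hn' : IsSquare (q * n' + a)
  ne : n ≠ n'
  hE : (EE q : ℤ) ∣ (mm q a n : ℤ) - mm q a n'

/-- bound for the Gram entries -/
noncomputable def HH (N : ℕ) : ℝ := 3 * Real.log N + Real.log 16

/-- weight of the sign `+` coordinate -/
noncomputable def wi (N q a : ℕ) : ℝ := Real.log (8 * ((a : ℝ) / q + N)) + Real.log (EE q)

/-- HALF: half of the points have roots congruent modulo `EE q`. -/
def ST_HALF : Prop := ∀ N q a : ℕ, 1 ≤ q → Nat.Coprime q a →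
  ∃ S : Finset ℕ, S ⊆ SS N q a ∧ (SS N q a).card ≤ 2 * S.card ∧
    ∀ n ∈ S, ∀ n' ∈ S, (EE q : ℤ) ∣ (mm q a n : ℤ) - mm q a n'

/-- SGN: the sign at an odd prime. -/
def ST_SGN : Prop := ∀ q a b n l : ℕ, 1 ≤ q → Nat.Coprime q a → IsSquare (q * b + a) →
  IsSquare (q * n + a) → l ∈ OP q →
  (sg q a b n l = 1 → (pw q l : ℤ) ∣ (mm q a n : ℤ) - mm q a b ∧
    ¬ (l : ℤ) ∣ (mm q a n : ℤ) + mm q a b) ∧
  (sg q a b n l = -1 → (pw q l : ℤ) ∣ (mm q a n : ℤ) + mm q a b ∧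
    ¬ (l : ℤ) ∣ (mm q a n : ℤ) - mm q a b)

/-- UV: the factorisation of difference and sum. -/
def ST_UV : Prop := ∀ q a b n n' : ℕ, Hyp q a b n n' →
  uu q a b n n' * vv q a b n n' * kap q = q ∧
  (uu q a b n n' : ℤ) * cc q a b n n' = (mm q a n : ℤ) - mm q a n' ∧
  (vv q a b n n' : ℤ) * dd q a b n n' = (mm q a n : ℤ) + mm q a n' ∧
  cc q a b n n' * dd q a b n n' = kap q * ((n : ℤ) - n') ∧
  cc q a b n n' ≠ 0 ∧ 1 ≤ dd q a b n n'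

/-- GR: the Gram entries. -/
def ST_GR : Prop := ∀ N q a b n n' : ℕ, Hyp q a b n n' → n < N → n' < N →
  0 ≤ wi N q a + ∑ l ∈ OP q, wt q l * ((sg q a b n l * sg q a b n' l : ℤ) : ℝ) ∧
  wi N q a + ∑ l ∈ OP q, wt q l * ((sg q a b n l * sg q a b n' l : ℤ) : ℝ) ≤ HH N

/-- CHI: the quadratic characters of the cofactors. -/
def ST_CHI : Prop := ∀ q a b p : ℕ, 1 ≤ q → Nat.Coprime q a → IsSquare (q * b + a) → p ∈ OP q →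
  ∃ (f : ℕ → ℤ) (lam mu : ℤ → ℤ), (∀ n, f n = 1 ∨ f n = -1) ∧
    (∀ s, lam s = 1 ∨ lam s = -1) ∧ (∀ s, mu s = 1 ∨ mu s = -1) ∧
    ∀ n n' : ℕ, Hyp q a b n n' →
      (sg q a b n p = sg q a b n' p →
        jacobiSym (dd q a b n n') p = lam (sg q a b n p) * f n * f n') ∧
      (sg q a b n p ≠ sg q a b n' p →
        jacobiSym (cc q a b n n') p = mu (sg q a b n p) * f n * f n')

/-- the arithmetic data used later: points `S`, signs `e`, cofactors `c`, `d`, the factor `k`, the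
weight `w` of the trivial coordinate -/
structure Dat (N q : ℕ) (S : Finset ℕ) (e : ℕ → ℕ → ℤ) (c d : ℕ → ℕ → ℤ) (k : ℤ) (w : ℝ) :
    Prop where
  sub : S ⊆ range N
  kap : k = 1 ∨ k = 2
  sgn : ∀ n l, e n l = 1 ∨ e n l = -1
  cd : ∀ n ∈ S, ∀ n' ∈ S, n ≠ n' → c n n' * d n n' = k * ((n : ℤ) - n')
  w0 : 0 ≤ w
  gram : ∀ n ∈ S, ∀ n' ∈ S, n ≠ n' →
    0 ≤ w + ∑ l ∈ OP q, wt q l * ((e n l * e n' l : ℤ) : ℝ) ∧
    w + ∑ l ∈ OP q, wt q l * ((e n l * e n' l : ℤ) : ℝ) ≤ HH N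
  chi : ∀ p ∈ OP q, ∃ (f : ℕ → ℤ) (lam mu : ℤ → ℤ), (∀ n, f n = 1 ∨ f n = -1) ∧
    (∀ s, lam s = 1 ∨ lam s = -1) ∧ (∀ s, mu s = 1 ∨ mu s = -1) ∧
    ∀ n ∈ S, ∀ n' ∈ S, n ≠ n' →
      (e n p = e n' p → jacobiSym (d n n') p = lam (e n p) * f n * f n') ∧
      (e n p ≠ e n' p → jacobiSym (c n n') p = mu (e n p) * f n * f n')

/-- AR: the data exist on at least half of the points. -/
def ST_AR : Prop := ∀ N q a : ℕ, 1 ≤ N → 1 ≤ q → Nat.Coprime q a →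
  ∃ (S : Finset ℕ) (e c d : ℕ → ℕ → ℤ) (k : ℤ) (w : ℝ), S ⊆ SS N q a ∧
    (SS N q a).card ≤ 2 * S.card ∧ Dat N q S e c d k w

/-- TR: the trace inequality. -/
def ST_TR : Prop := ∀ (ι : Type) [DecidableEq ι] (V1 V2 : Finset ι) (S : Finset ℕ) (w : ι → ℝ)
  (e : ℕ → ι → ℝ) (H : ℝ), (∀ l, 0 ≤ w l) → 0 ≤ H → (∀ n l, e n l ^ 2 = 1) → Disjoint V1 V2 →
  (∀ n ∈ S, ∀ n' ∈ S, n ≠ n' → |∑ l ∈ V1 ∪ V2, w l * (e n l * e n' l)| ≤ H) →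
  2 * V2.card ≤ S.card →
  ∑ l ∈ V1 ∪ V2, w l ≤ 2 * ∑ l ∈ V1, w l + 2 * Real.sqrt S.card * H

/-- W: bound for the total weight. -/
def ST_W : Prop := ∀ (N q1 q2 : ℕ) (S : Finset ℕ) (e c d : ℕ → ℕ → ℤ) (k : ℤ) (w : ℝ),
  1 ≤ N → 1 ≤ q1 → 1 ≤ q2 → Nat.Coprime q1 q2 → Dat N (q1 * q2) S e c d k w →
  2 * (q2.primeFactors.card + 1) ≤ S.card →
  w + ∑ l ∈ OP (q1 * q2), wt (q1 * q2) l ≤ 2 * Real.log q1 + 2 * Real.sqrt S.card * HH N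

/-- both signs at `p` occur on at least a quarter of `S'` -/
def Bal (e : ℕ → ℕ → ℤ) (S' : Finset ℕ) (p : ℕ) : Prop :=
  S'.card ≤ 4 * (S'.filter (fun n => e n p = 1)).card ∧
  S'.card ≤ 4 * (S'.filter (fun n => e n p = -1)).card

open Classical in
/-- BL: few primes are unbalanced on a large set. -/
def ST_BL : Prop := ∀ (N q : ℕ) (S : Finset ℕ) (e c d : ℕ → ℕ → ℤ) (k : ℤ) (w : ℝ),
  1 ≤ N → Dat N q S e c d k w → ∀ S' : Finset ℕ, S' ⊆ S → S'.Nonempty →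
  (((OP q).filter (fun p => ¬ Bal e S' p)).card : ℝ) ≤
    4 * ((w + ∑ l ∈ OP q, wt q l) / S'.card + HH N)

/-- SV: primes not dividing `q`, by the large sieve. -/
def ST_SV : Prop := ∃ C : ℝ, 0 < C ∧ ∀ N q a P : ℕ, 1 ≤ N → 1 ≤ P → Nat.Coprime q a →
  (((Icc 1 P).filter (fun p => p.Prime ∧ p ≠ 2 ∧ ¬ p ∣ q)).card : ℝ) * (SS N q a).card ≤
    C * ((N : ℝ) + (P : ℝ) ^ 2)

/-- the odd primes up to `P` dividing `q` -/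
def PP (q P : ℕ) : Finset ℕ := (OP q).filter (fun p => p ≤ P)

/-- PL: most primes up to `P` divide `q`. -/
def ST_PL : Prop := ∃ c0 : ℝ, 0 < c0 ∧ ∀ ε : ℝ, 0 < ε → ∃ C : ℝ, 0 < C ∧ ∀ N q a P : ℕ,
  1 ≤ N → 1 ≤ q → Nat.Coprime q a → N ≤ P ^ 2 → P ≤ N →
  C * (N : ℝ) ^ ε * P ≤ (SS N q a).card →
  c0 * P / (1 + Real.log N) ≤ (PP q P).card

/-- the tuple `t` has all sign sets large -/
def Good (S : Finset ℕ) (e : ℕ → ℕ → ℤ) (j : ℕ) (t : Fin j → ℕ) : Prop :=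
  ∀ σ : Fin j → ℤ, (∀ i, σ i = 1 ∨ σ i = -1) →
    S.card ≤ 4 ^ j * (S.filter (fun n => ∀ i, e n (t i) = σ i)).card

open Classical in
/-- GT: there are many good injective tuples. -/
def ST_GT : Prop := ∀ (S Q : Finset ℕ) (e : ℕ → ℕ → ℤ) (j b : ℕ),
  S.Nonempty → (∀ n l, e n l = 1 ∨ e n l = -1) →
  (∀ S' : Finset ℕ, S' ⊆ S → S.card ≤ 4 ^ j * S'.card →
    (Q.filter (fun p => ¬ Bal e S' p)).card ≤ b) →
  2 * (2 ^ j * b + j) ≤ Q.card →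
  ∃ T : Finset (Fin j → ℕ), (∀ t ∈ T, Function.Injective t ∧ (∀ i, t i ∈ Q) ∧ Good S e j t) ∧
    Q.card ^ j ≤ 2 ^ j * T.card

/-- nondegenerate 4-cycles `(n1, n2, n', n'')` of `S` -/
def T4 (S : Finset ℕ) : Finset (ℕ × ℕ × ℕ × ℕ) :=
  (S ×ˢ S ×ˢ S ×ˢ S).filter (fun t => t.1 ≠ t.2.2.1 ∧ t.1 ≠ t.2.2.2 ∧ t.2.1 ≠ t.2.2.1 ∧
    t.2.1 ≠ t.2.2.2)

/-- product of `c` over the four edges of the cycle -/
def cyc (c : ℕ → ℕ → ℤ) (t : ℕ × ℕ × ℕ × ℕ) : ℤ :=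
  c t.1 t.2.2.1 * c t.1 t.2.2.2 * c t.2.1 t.2.2.1 * c t.2.1 t.2.2.2

/-- the sum over the cycles -/
def QQ (S : Finset ℕ) (c d : ℕ → ℕ → ℤ) (r r' : ℕ) : ℤ :=
  ∑ t ∈ T4 S, jacobiSym (cyc c t) r * jacobiSym (cyc d t) r'

/-- pairs of cycles with both products squares -/
def MM (S : Finset ℕ) (c d : ℕ → ℕ → ℤ) : Finset ((ℕ × ℕ × ℕ × ℕ) × (ℕ × ℕ × ℕ × ℕ)) :=
  (T4 S ×ˢ T4 S).filter (fun x => IsSquare (cyc c x.1 * cyc c x.2) ∧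
    IsSquare (cyc d x.1 * cyc d x.2))

/-- CS: Cauchy–Schwarz twice for a matrix which has rank one on `X × Y`. -/
def ST_CS : Prop := ∀ (S X Y : Finset ℕ) (A : ℕ → ℕ → ℤ) (F G : ℕ → ℤ) (κ : ℤ),
  X ⊆ S → Y ⊆ S → (∀ n, F n = 1 ∨ F n = -1) → (∀ n, G n = 1 ∨ G n = -1) → (κ = 1 ∨ κ = -1) →
  (∀ n ∈ X, ∀ n' ∈ Y, A n n' = κ * F n * G n') →
  ((X.card : ℤ) * Y.card) ^ 2 ≤ ∑ n1 ∈ S, ∑ n2 ∈ S, (∑ n' ∈ S, A n1 n' * A n2 n') ^ 2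

/-- LOW: lower bound for `QQ` at a good tuple. -/
def ST_LOW : Prop := ∀ (N q : ℕ) (S : Finset ℕ) (e c d : ℕ → ℕ → ℤ) (k : ℤ) (w : ℝ) (K : ℕ)
  (t t' : Fin K → ℕ) (X Y : Finset ℕ), Dat N q S e c d k w → 1 ≤ K →
  (∀ i, t i ∈ OP q) → (∀ i, t' i ∈ OP q) → X ⊆ S → Y ⊆ S →
  (∀ n ∈ X, ∀ i, e n (t i) = 1 ∧ e n (t' i) = 1) →
  (∀ n ∈ Y, ∀ i, e n (t i) = -1 ∧ e n (t' i) = 1) →
  ((X.card : ℤ) * Y.card) ^ 2 ≤ QQ S c d (∏ i, t i) (∏ i, t' i)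

/-- PER: sums of the Jacobi symbol over the denominators. -/
def ST_PER : Prop := ∀ n : ℤ, n ≠ 0 → ¬ IsSquare n → ∀ Z : ℕ,
  |∑ r ∈ (Icc 1 Z).filter (fun r => Odd r), jacobiSym n r| ≤ 4 * |n|

/-- SUM: the sum of the squares of a double character sum. -/
def ST_SUM : Prop := ∀ (ι : Type) [DecidableEq ι] (T : Finset ι) (C D : ι → ℤ) (K0 Z : ℕ),
  (∀ t ∈ T, C t ≠ 0 ∧ |C t| ≤ K0 ∧ D t ≠ 0 ∧ |D t| ≤ K0) →
  ∑ r ∈ (Icc 1 Z).filter (fun r => Odd r), ∑ r' ∈ (Icc 1 Z).filter (fun r => Odd r),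
      (∑ t ∈ T, jacobiSym (C t) r * jacobiSym (D t) r') ^ 2 ≤
    (Z : ℤ) ^ 2 * ((T ×ˢ T).filter (fun x => IsSquare (C x.1 * C x.2) ∧
      IsSquare (D x.1 * D x.2))).card +
    (2 * Z * (4 * (K0 : ℤ) ^ 2) + (4 * (K0 : ℤ) ^ 2) ^ 2) * (T.card : ℤ) ^ 2

/-- FIB: from tuples of primes to pairs of integers. -/
def ST_FIB : Prop := ∀ (K P : ℕ) (T : Finset (Fin (K + K) → ℕ)) (g : ℕ → ℕ → ℤ),
  1 ≤ K → (∀ r r', 0 ≤ g r r') →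
  (∀ t ∈ T, Function.Injective t ∧ ∀ i, (t i).Prime ∧ t i ≠ 2 ∧ t i ≤ P) →
  ∑ t ∈ T, g (∏ i : Fin K, t (Fin.castAdd K i)) (∏ i : Fin K, t (Fin.natAdd K i)) ≤
    (K : ℤ) ^ (2 * K) * ∑ r ∈ (Icc 1 (P ^ K)).filter (fun r => Odd r),
      ∑ r' ∈ (Icc 1 (P ^ K)).filter (fun r => Odd r), g r r'

/-- MLOW: lower bound for the number of square pairs. -/
def ST_MLOW : Prop := ∀ c0 : ℝ, 0 < c0 → ∃ C : ℝ, 0 < C ∧ ∀ (N q P : ℕ) (S : Finset ℕ)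
  (e c d : ℕ → ℕ → ℤ) (k : ℤ) (w : ℝ) (T : Finset (Fin (20 + 20) → ℕ)),
  1 ≤ N → N ≤ P ^ 2 → Dat N q S e c d k w → c0 * P / (1 + Real.log N) ≤ (PP q P).card →
  (∀ t ∈ T, Function.Injective t ∧ (∀ i, t i ∈ PP q P) ∧ Good S e (20 + 20) t) →
  (PP q P).card ^ 40 ≤ 2 ^ 40 * T.card →
  (S.card : ℝ) ^ 8 ≤ C * (1 + Real.log N) ^ 40 *
    (((MM S c d).card : ℝ) + (S.card : ℝ) ^ 8 / (N : ℝ) ^ 2)

/-- DV: points for which a quadratic polynomial with two roots takes square values. -/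
def ST_DV : Prop := ∀ ε : ℝ, 0 < ε → ∃ C : ℝ, 0 < C ∧ ∀ (N x y : ℕ) (B : ℤ), 1 ≤ N → x < N →
  y < N → x ≠ y → B ≠ 0 → |(B : ℝ)| ≤ 256 * (N : ℝ) ^ 20 →
  (((range N).filter (fun n : ℕ => n ≠ x ∧ n ≠ y ∧
    IsSquare (B * ((n : ℤ) - x) * ((n : ℤ) - y)))).card : ℝ) ≤ C * (N : ℝ) ^ (1 / 2 + ε)

/-- END: upper bound for the number of square pairs. -/
def ST_END : Prop := ∀ ε : ℝ, 0 < ε → ∃ C : ℝ, 0 < C ∧ ∀ (N : ℕ) (S : Finset ℕ)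
  (c d : ℕ → ℕ → ℤ) (k : ℤ), 1 ≤ N → S ⊆ range N → (k = 1 ∨ k = 2) →
  (∀ n ∈ S, ∀ n' ∈ S, n ≠ n' → c n n' * d n n' = k * ((n : ℤ) - n')) →
  ((MM S c d).card : ℝ) ≤ C * (S.card : ℝ) ^ 7 * (N : ℝ) ^ (1 / 2 + ε)

open Classical in
/-- BAD: the hypothesis of GT is satisfied. -/
def ST_BAD : Prop := ∀ c0 ε : ℝ, 0 < c0 → 0 < ε → ∃ C : ℝ, 0 < C ∧ ∀ (N q1 q2 P : ℕ)
  (S : Finset ℕ) (e c d : ℕ → ℕ → ℤ) (k : ℤ) (w : ℝ), 1 ≤ N → 1 ≤ q1 → 1 ≤ q2 →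
  Nat.Coprime q1 q2 → Dat N (q1 * q2) S e c d k w → N ≤ P ^ 2 → P ≤ N →
  Real.log q1 ≤ (P : ℝ) ^ 2 →
  C * ((N : ℝ) ^ ε * P + q2.primeFactors.card) ≤ S.card →
  c0 * P / (1 + Real.log N) ≤ (PP (q1 * q2) P).card →
  ∃ b : ℕ, 2 * (2 ^ 40 * b + 40) ≤ (PP (q1 * q2) P).card ∧
    ∀ S' : Finset ℕ, S' ⊆ S → S.card ≤ 4 ^ 40 * S'.card →
      ((PP (q1 * q2) P).filter (fun p => ¬ Bal e S' p)).card ≤ b

/-- MAIN -/
def ST_MAIN : Prop := ∀ ε : ℝ, 0 < ε → ∃ C : ℝ, ∀ N q1 q2 a : ℕ, 1 ≤ N → 1 ≤ q1 → 1 ≤ q2 →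
  Nat.Coprime q1 q2 → Nat.Coprime (q1 * q2) a →
  (((range N).filter (fun n => IsSquare (q1 * q2 * n + a))).card : ℝ) ≤
    C * ((N : ℝ) ^ (1 / 2 + ε) + (N : ℝ) ^ ε * Real.sqrt (Real.log q1) +
      (q2.primeFactors.card : ℝ))

end Pool.Agent.Helper18.RD
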