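import Pool.Agent.Helper18.RD.Stmts

/-! Project RD, second form: logarithms in place of `N ^ ε`. -/

set_option autoImplicit false

namespace Pool.Agent.Helper18.RD

open Finset

/-- PL2: most primes up to `P` divide `q`. -/
def ST_PL2 : Prop := ∃ c0 C : ℝ, 0 < c0 ∧ 0 < C ∧ ∀ N q a P : ℕ,
  1 ≤ N → 1 ≤ q → Nat.Coprime q a → N ≤ P ^ 2 → P ≤ N →
  C * (1 + Real.log N) * P ≤ (SS N q a).card →
  c0 * P / (1 + Real.log N) ≤ (PP q P).card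

open Classical in
/-- BAD2: the hypothesis of GT is satisfied. -/
def ST_BAD2 : Prop := ∀ c0 : ℝ, 0 < c0 → ∃ C : ℝ, 0 < C ∧ ∀ (N q1 q2 P : ℕ)
  (S : Finset ℕ) (e c d : ℕ → ℕ → ℤ) (k : ℤ) (w : ℝ), 1 ≤ N → 1 ≤ q1 → 1 ≤ q2 →
  Nat.Coprime q1 q2 → Dat N (q1 * q2) S e c d k w → N ≤ P ^ 2 → P ≤ N →
  Real.log q1 ≤ (P : ℝ) ^ 2 →
  C * ((1 + Real.log N) * P + q2.primeFactors.card) ≤ S.card →
  c0 * P / (1 + Real.log N) ≤ (PP (q1 * q2) P).card →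
  ∃ b : ℕ, 2 * (2 ^ 40 * b + 40) ≤ (PP (q1 * q2) P).card ∧
    ∀ S' : Finset ℕ, S' ⊆ S → S.card ≤ 4 ^ 40 * S'.card →
      ((PP (q1 * q2) P).filter (fun p => ¬ Bal e S' p)).card ≤ b

/-- triples of `S` with a square condition -/
def E3 (S : Finset ℕ) (z : ℕ) (B : ℤ) : Finset (ℕ × ℕ × ℕ) :=
  (S ×ˢ S ×ˢ S).filter (fun t => t.1 ≠ t.2.1 ∧ t.1 ≠ t.2.2 ∧ z ≠ t.2.1 ∧ z ≠ t.2.2 ∧
    IsSquare (B * ((z : ℤ) - t.2.1) * ((z : ℤ) - t.2.2) * ((t.1 : ℤ) - t.2.1) *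
      ((t.1 : ℤ) - t.2.2)))

/-- ENA: from pairs of cycles to triples. -/
def ST_ENA : Prop := ∀ (N : ℕ) (S : Finset ℕ) (c d : ℕ → ℕ → ℤ) (k : ℤ) (X : ℝ), 1 ≤ N →
  S ⊆ range N → (k = 1 ∨ k = 2) →
  (∀ n ∈ S, ∀ n' ∈ S, n ≠ n' → c n n' * d n n' = k * ((n : ℤ) - n')) →
  (∀ (z : ℕ) (B : ℤ), z < N → B ≠ 0 → |(B : ℝ)| ≤ 256 * (N : ℝ) ^ 4 →
    ((E3 S z B).card : ℝ) ≤ X) →
  ((MM S c d).card : ℝ) ≤ (S.card : ℝ) ^ 5 * X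

open Classical in
/-- pairs of `S` whose difference is `e` times a square -/
noncomputable def G2 (S : Finset ℕ) (e : ℕ) : Finset (ℕ × ℕ) :=
  (S ×ˢ S).filter (fun t => ∃ α : ℕ, 1 ≤ α ∧ t.1 = t.2 + e * α ^ 2)

/-- ENB: few pairs at distance `e` times a square. -/
def ST_ENB : Prop := ∀ ε : ℝ, 0 < ε → ∃ C : ℝ, 0 < C ∧ ∀ (N e : ℕ) (S : Finset ℕ), 1 ≤ N →
  1 ≤ e → S ⊆ range N → ((G2 S e).card : ℝ) ^ 2 ≤ C * (S.card : ℝ) ^ 3 * (N : ℝ) ^ ε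

/-- ENC: the triples: the squarefree part of `|n - x|` divides `B (x-y) (z-x) (z-y)`; large
squarefree parts are rare, small ones are covered by ENB. -/
def ST_ENC : Prop := ∀ ε : ℝ, 0 < ε → ∃ C : ℝ, 0 < C ∧ ∀ (N E z : ℕ) (B : ℤ) (S : Finset ℕ),
  1 ≤ N → 1 ≤ E → z < N → B ≠ 0 → |(B : ℝ)| ≤ 256 * (N : ℝ) ^ 4 → S ⊆ range N →
  ((E3 S z B).card : ℝ) ≤ (S.card : ℝ) ^ 2 + C * (S.card : ℝ) ^ 2 * (N : ℝ) ^ (1 / 2 + ε) /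
      Real.sqrt E + 2 * (S.card : ℝ) * ∑ e ∈ Icc 1 E, ((G2 S e).card : ℝ)

/-- END2: for `|S| ≥ √N` the pairs of cycles with square products are rare. -/
def ST_END2 : Prop := ∃ C : ℝ, 0 < C ∧ ∀ (N : ℕ) (S : Finset ℕ)
  (c d : ℕ → ℕ → ℤ) (k : ℤ), 1 ≤ N → S ⊆ range N → (k = 1 ∨ k = 2) → N ≤ S.card ^ 2 →
  (∀ n ∈ S, ∀ n' ∈ S, n ≠ n' → c n n' * d n n' = k * ((n : ℤ) - n')) →
  ((MM S c d).card : ℝ) ≤ C * (S.card : ℝ) ^ 8 * (N : ℝ) ^ (-(1 / 20) : ℝ)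

/-- MAIN2 -/
def ST_MAIN2 : Prop := ∃ C : ℝ, ∀ N q1 q2 a : ℕ, 1 ≤ N → 1 ≤ q1 → 1 ≤ q2 →
  Nat.Coprime q1 q2 → Nat.Coprime (q1 * q2) a →
  (((range N).filter (fun n => IsSquare (q1 * q2 * n + a))).card : ℝ) ≤
    C * ((1 + Real.log N) * (Real.sqrt N + Real.sqrt (Real.log q1)) +
      (q2.primeFactors.card : ℝ))

end Pool.Agent.Helper18.RD
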