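import Pool.Agent.Helper18.RD.Stmts2

/-! Project RD, third form: the factor `q / φ(q)` in place of the logarithm. -/

set_option autoImplicit false

namespace Pool.Agent.Helper18.RD

open Finset

/-- DP (helper30): if many primes up to some `P ≥ N ^ ε` divide `q` the exponent drops to `2/5`. -/
def ST_DP : Prop := ∀ ε : ℝ, 0 < ε → ∃ C κ : ℝ, 0 < C ∧ 0 < κ ∧
  ∀ (N q1 q2 a P : ℕ) (D : ℝ), 1 ≤ N → 1 ≤ q1 → 1 ≤ q2 → Nat.Coprime q1 q2 →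
  Nat.Coprime (q1 * q2) a → (N : ℝ) ^ ε ≤ P → 1 ≤ D → (P : ℝ) ≤ D * (PP (q1 * q2) P).card →
  ((SS N (q1 * q2) a).card : ℝ) ≤
    C * (D ^ κ * (N : ℝ) ^ (2 / 5 + ε) + D * Real.log q1 / P + (q2.primeFactors.card : ℝ))

/-- the weights of the sieve -/
noncomputable def gg (r : ℕ) : ℝ := ∏ p ∈ r.primeFactors, ((p : ℝ) - 1) / (p + 1)

/-- the moduli of the sieve -/
def RR (q Q : ℕ) : Finset ℕ :=
  (Icc 1 Q).filter (fun r => Squarefree r ∧ Nat.Coprime r (2 * q))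

/-- GS: the large sieve with composite moduli. -/
def ST_GS : Prop := ∃ C : ℝ, 0 < C ∧ ∀ N q a Q : ℕ, 1 ≤ N → 1 ≤ Q → Nat.Coprime q a →
  (∑ r ∈ RR q Q, gg r) * ((SS N q a).card : ℝ) ≤ C * ((N : ℝ) + (Q : ℝ) ^ 2)

/-- LLA: harmonic sums over integers coprime to `2 q`. -/
def ST_LLA : Prop := ∀ q y : ℕ, 1 ≤ q →
  ∑ m ∈ Icc 1 y, 1 / (m : ℝ) ≤ 2 * ((q : ℝ) / (Nat.totient q : ℝ)) *
    ∑ m ∈ (Icc 1 y).filter (fun m => Nat.Coprime m (2 * q)), 1 / (m : ℝ)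

/-- LLB: the same with the weights of the sieve. -/
def ST_LLB : Prop := ∃ K : ℝ, 0 < K ∧ ∀ q y : ℕ,
  ∑ m ∈ (Icc 1 y).filter (fun m => Nat.Coprime m (2 * q)), 1 / (m : ℝ) ≤
    K * ∑ r ∈ RR q y, gg r / (r : ℝ)

/-- LLC: lower bound for the sieve sum if few primes up to `Q` divide `q`. -/
def ST_LLC : Prop := ∀ η : ℝ, 0 < η → η < 1 → ∃ c : ℝ, 0 < c ∧ ∀ q Q : ℕ, 1 ≤ q → 1 ≤ Q →
  ((PP q Q).card : ℝ) ≤ (Q : ℝ) ^ (1 - η) →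
  c * ((Q : ℝ) * ((Nat.totient q : ℝ) / (q : ℝ))) ≤ ∑ r ∈ RR q Q, gg r

/-- MAIN3 -/
def ST_MAIN3 : Prop := ∀ ε : ℝ, 0 < ε → ∃ C : ℝ, ∀ N q1 q2 a : ℕ, 1 ≤ N → 1 ≤ q1 → 1 ≤ q2 →
  Nat.Coprime q1 q2 → Nat.Coprime (q1 * q2) a →
  (((range N).filter (fun n => IsSquare (q1 * q2 * n + a))).card : ℝ) ≤
    C * (Real.sqrt N * ((q1 * q2 : ℕ) / (Nat.totient (q1 * q2) : ℝ)) +
      (N : ℝ) ^ ε * Real.sqrt (Real.log q1) + (q2.primeFactors.card : ℝ))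

end Pool.Agent.Helper18.RD
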