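import Pool.Agent.Helper18.RD.Stmts4
import Pool.Agent.Helper30.RD3.Sheet

/-! Project RD, sixth form: no condition on the size of `q` (helper19's idea): primes not dividing
`q` show that most small primes of `q` split large sets of points. -/

set_option autoImplicit false

namespace Pool.Agent.Helper18.RD

open Finset

/-- both signs at `p` occur on at least a sixteenth of `S'` -/
def Bal6 (e : ℕ → ℕ → ℤ) (S' : Finset ℕ) (p : ℕ) : Prop :=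
  S'.card ≤ 16 * (S'.filter (fun n => e n p = 1)).card ∧
  S'.card ≤ 16 * (S'.filter (fun n => e n p = -1)).card

/-- the tuple `t` has all sign sets large -/
def Good6 (S : Finset ℕ) (e : ℕ → ℕ → ℤ) (j : ℕ) (t : Fin j → ℕ) : Prop :=
  ∀ σ : Fin j → ℤ, (∀ i, σ i = 1 ∨ σ i = -1) →
    S.card ≤ 16 ^ j * (S.filter (fun n => ∀ i, e n (t i) = σ i)).card

open Classical in
/-- GT6: there are many good injective tuples (copy of GT, `Helper97/RD/GT.lean`, with 16). -/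
def ST_GT6 : Prop := ∀ (S Q : Finset ℕ) (e : ℕ → ℕ → ℤ) (j b : ℕ),
  S.Nonempty → (∀ n l, e n l = 1 ∨ e n l = -1) →
  (∀ S' : Finset ℕ, S' ⊆ S → S.card ≤ 16 ^ j * S'.card →
    (Q.filter (fun p => ¬ Bal6 e S' p)).card ≤ b) →
  2 * (2 ^ j * b + j) ≤ Q.card →
  ∃ T : Finset (Fin j → ℕ), (∀ t ∈ T, Function.Injective t ∧ (∀ i, t i ∈ Q) ∧ Good6 S e j t) ∧
    Q.card ^ j ≤ 2 ^ j * T.card

/-- MLW6: copy of MLOW3 (`Helper30/RD3/MLOW3.lean`) with Good6. -/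
def ST_MLW6 : Prop := ∀ K : ℕ, 1 ≤ K → ∃ C : ℝ, 0 < C ∧ ∀ (N q P : ℕ) (D : ℝ) (S : Finset ℕ)
  (e c d : ℕ → ℕ → ℤ) (k : ℤ) (w : ℝ) (T : Finset (Fin (K + K) → ℕ)),
  1 ≤ N → N ^ 10 ≤ P ^ K → 1 ≤ D → Dat N q S e c d k w → (P : ℝ) ≤ D * (PP q P).card →
  (∀ t ∈ T, Function.Injective t ∧ (∀ i, t i ∈ PP q P) ∧ Good6 S e (K + K) t) →
  (PP q P).card ^ (K + K) ≤ 2 ^ (K + K) * T.card →
  (S.card : ℝ) ^ 8 ≤ C * D ^ (K + K) *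
    (((MM S c d).card : ℝ) + (S.card : ℝ) ^ 8 / (N : ℝ) ^ 2)

/-- odd primes up to `y` not dividing `q` -/
def NP (q y : ℕ) : Finset ℕ := (Icc 1 y).filter (fun p => p.Prime ∧ p ≠ 2 ∧ ¬ p ∣ q)

/-- CHN: the character of the cofactor `d` at a prime which does not divide `2 q`. -/
def ST_CHN : Prop := ∀ q a b p : ℕ, 1 ≤ q → Nat.Coprime q a → IsSquare (q * b + a) → p.Prime →
  p ≠ 2 → ¬ p ∣ q → ∃ g : ℕ → ℤ, (∀ n, g n = 1 ∨ g n = -1) ∧ ∀ n n' : ℕ, Hyp q a b n n' →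
    jacobiSym ((mm q a n : ℤ) + mm q a n') p = jacobiSym (dd q a b n n') p * g n * g n'

/-- more data: the roots `m` -/
structure DatN (q : ℕ) (S : Finset ℕ) (d : ℕ → ℕ → ℤ) (m : ℕ → ℤ) : Prop where
  dif : ∀ n ∈ S, ∀ n' ∈ S, ∀ p : ℕ, p.Prime → ¬ p ∣ q → (p : ℤ) ∣ m n - m n' →
    (p : ℤ) ∣ (n : ℤ) - n'
  chn : ∀ p : ℕ, p.Prime → p ≠ 2 → ¬ p ∣ q → ∃ g : ℕ → ℤ, (∀ n, g n = 1 ∨ g n = -1) ∧
    ∀ n ∈ S, ∀ n' ∈ S, n ≠ n' → jacobiSym (m n + m n') p = jacobiSym (d n n') p * g n * g n'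

/-- ARN: all data (copy of AR, `Helper58/RD/AR.lean`, with `m n = mm q a n`). -/
def ST_ARN : Prop := ∀ N q a : ℕ, 1 ≤ N → 1 ≤ q → Nat.Coprime q a →
  ∃ (S : Finset ℕ) (e c d : ℕ → ℕ → ℤ) (k : ℤ) (w : ℝ) (m : ℕ → ℤ), S ⊆ SS N q a ∧
    (SS N q a).card ≤ 2 * S.card ∧ Dat N q S e c d k w ∧ DatN q S d m

/-- BIL: bilinear sums of the character modulo the product of two primes. -/
def ST_BIL : Prop := ∀ (p p' : ℕ) (J : Finset ℕ) (m F G : ℕ → ℤ), p.Prime → p'.Prime →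
  p ≠ 2 → p' ≠ 2 → p ≠ p' → (∀ n, |F n| ≤ 1) → (∀ n, |G n| ≤ 1) →
  (∑ i ∈ J, ∑ j ∈ J, jacobiSym (m i + m j) (p * p') * F i * G j) ^ 2 ≤
    (p : ℤ) * p' * (((J ×ˢ J).filter (fun x => ((p : ℤ) * p') ∣ m x.1 - m x.2)).card : ℤ) ^ 2

/-- SMO: second moment over the primes of `Q` (from BIL). -/
def ST_SMO : Prop := ∀ (y l : ℕ) (J Q : Finset ℕ) (m : ℕ → ℤ) (F G : ℕ → ℕ → ℤ),
  (∀ p ∈ Q, p.Prime ∧ p ≠ 2 ∧ p ≤ y) → (∀ p n, |F p n| ≤ 1) → (∀ p n, |G p n| ≤ 1) →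
  (∀ i ∈ J, ∀ j ∈ J, i ≠ j → (Q.filter (fun p : ℕ => (p : ℤ) ∣ m i - m j)).card ≤ l) →
  ∑ i ∈ J, ∑ j ∈ J, (∑ p ∈ Q, jacobiSym (m i + m j) p * F p i * G p j) ^ 2 ≤
    (Q.card : ℤ) * J.card ^ 2 + y * (Q.card ^ 2 * J.card + l ^ 2 * J.card ^ 2)

/-- MO1: positive bias of the 4-cycles at an unbalanced prime (all four points in the majority). -/
def ST_MO1 : Prop := ∀ (N q p : ℕ) (S J : Finset ℕ) (e c d : ℕ → ℕ → ℤ) (k : ℤ) (w : ℝ),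
  Dat N q S e c d k w → J ⊆ S → 16 ≤ J.card → p ∈ OP q → ¬ Bal6 e J p →
  (J.card : ℤ) ^ 4 ≤ 4 * ∑ t ∈ T4 J, jacobiSym (cyc d t) p

/-- pairs of cycles of `J` whose products of `d` differ by a square -/
def M2 (J : Finset ℕ) (d : ℕ → ℕ → ℤ) : Finset ((ℕ × ℕ × ℕ × ℕ) × (ℕ × ℕ × ℕ × ℕ)) :=
  (T4 J ×ˢ T4 J).filter (fun x => IsSquare (cyc d x.1 * cyc d x.2))

/-- FI6: from tuples of primes to integers. -/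
def ST_FI6 : Prop := ∀ (K P : ℕ) (U : Finset ℕ) (g : ℕ → ℝ), 1 ≤ K → (∀ r, 0 ≤ g r) →
  (∀ p ∈ U, p.Prime ∧ p ≠ 2 ∧ p ≤ P) →
  ∑ t ∈ Fintype.piFinset (fun _ : Fin K => U), g (∏ i, t i) ≤
    (K : ℝ) ^ K * ∑ r ∈ (Icc 1 (P ^ K)).filter (fun r => Odd r), g r

/-- SU6: mean square over odd `r` of a sum of characters (from PER). -/
def ST_SU6 : Prop := ∀ (ι : Type) [DecidableEq ι] (T : Finset ι) (Y : ι → ℤ) (K0 Z : ℕ),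
  (∀ t ∈ T, Y t ≠ 0 ∧ |Y t| ≤ K0) →
  ∑ r ∈ (Icc 1 Z).filter (fun r => Odd r), (∑ t ∈ T, jacobiSym (Y t) r) ^ 2 ≤
    (Z : ℤ) * ((T ×ˢ T).filter (fun x => IsSquare (Y x.1 * Y x.2))).card +
    4 * (K0 : ℤ) ^ 2 * (T.card : ℤ) ^ 2

/-- ENE: many pairs of cycles in the same square class (power mean of even order `2 K`,
multiplicativity, Cauchy–Schwarz, FI6, SU6). -/
def ST_ENE : Prop := ∀ K : ℕ, 1 ≤ K → ∃ C : ℝ, 0 < C ∧ ∀ (N P : ℕ) (D : ℝ) (J U : Finset ℕ)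
  (d : ℕ → ℕ → ℤ), 1 ≤ N → 1 ≤ D → J.Nonempty →
  (∀ n ∈ J, ∀ n' ∈ J, n ≠ n' → d n n' ≠ 0 ∧ |d n n'| ≤ 2 * N) →
  (∀ p ∈ U, p.Prime ∧ p ≠ 2 ∧ p ≤ P) → (P : ℝ) ≤ D * U.card →
  C * (N : ℝ) ^ 8 * D ^ (2 * K) ≤ (P : ℝ) ^ (2 * K) →
  (∀ p ∈ U, (J.card : ℤ) ^ 4 ≤ 4 * ∑ t ∈ T4 J, jacobiSym (cyc d t) p) →
  (J.card : ℝ) ^ 8 ≤ C * D ^ (2 * K) * (M2 J d).card

/-- ENP: pigeonhole. -/
def ST_ENP : Prop := ∀ (N : ℕ) (J : Finset ℕ) (d : ℕ → ℕ → ℤ) (E : ℝ), 1 ≤ N → 0 < E →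
  J.Nonempty → (∀ n ∈ J, ∀ n' ∈ J, n ≠ n' → d n n' ≠ 0 ∧ |d n n'| ≤ 2 * N) →
  (J.card : ℝ) ^ 8 ≤ E * (M2 J d).card →
  ∃ x ∈ J, ∃ y ∈ J, ∃ B : ℤ, x ≠ y ∧ B ≠ 0 ∧ |B| ≤ 16 * (N : ℤ) ^ 4 ∧
    (J.card : ℝ) ^ 2 ≤ E * ((J ×ˢ J).filter (fun z => z.1 ≠ z.2 ∧ z.1 ≠ y ∧ x ≠ z.2 ∧
      IsSquare (d z.1 z.2 * d z.1 y * d x z.2 * d x y * B))).card

/-- BDJ: on a large set `J` less than `P / D` primes up to `P` are unbalanced, if enough primes up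
to `y` do not divide `q` (from MO1, ENE, ENP, SMO). -/
def ST_BDJ : Prop := ∀ K : ℕ, 1 ≤ K → ∃ C : ℝ, 0 < C ∧ ∀ (N q P y : ℕ) (D : ℝ)
  (S J U : Finset ℕ) (e c d : ℕ → ℕ → ℤ) (k : ℤ) (w : ℝ) (m : ℕ → ℤ), 1 ≤ N → 1 ≤ q → 1 ≤ y →
  1 ≤ D → Dat N q S e c d k w → DatN q S d m → J ⊆ S → U ⊆ PP q P →
  (∀ p ∈ U, ¬ Bal6 e J p) → (P : ℝ) ≤ D * U.card →
  C * (N : ℝ) ^ 8 * D ^ (2 * K) ≤ (P : ℝ) ^ (2 * K) →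
  C * D ^ (2 * K) * y ≤ J.card →
  C * D ^ (2 * K) * (1 + Real.log N) ^ 2 * y ≤ ((NP q y).card : ℝ) ^ 2 → False

open Classical in
/-- BADN: the hypothesis of GT6 (from BDJ). -/
def ST_BADN : Prop := ∀ K j : ℕ, 1 ≤ K → ∃ C : ℝ, 0 < C ∧ ∀ (N q P y : ℕ) (D : ℝ)
  (S : Finset ℕ) (e c d : ℕ → ℕ → ℤ) (k : ℤ) (w : ℝ) (m : ℕ → ℤ), 1 ≤ N → 1 ≤ q → 1 ≤ y →
  1 ≤ D → Dat N q S e c d k w → DatN q S d m →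
  C * (N : ℝ) ^ 8 * D ^ (2 * K) ≤ (P : ℝ) ^ (2 * K) → (P : ℝ) ≤ D * (PP q P).card →
  C * D ^ (2 * K) * y ≤ S.card →
  C * D ^ (2 * K) * (1 + Real.log N) ^ 2 * y ≤ ((NP q y).card : ℝ) ^ 2 →
  ∃ b : ℕ, 2 * (2 ^ j * b + j) ≤ (PP q P).card ∧
    ∀ S' : Finset ℕ, S' ⊆ S → S.card ≤ 16 ^ j * S'.card →
      ((PP q P).filter (fun p => ¬ Bal6 e S' p)).card ≤ b

/-- DPN: many primes up to `P` divide `q`, enough primes up to `y` do not (from ARN, BADN, GT6,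
MLW6, END4; copy of `Helper30/RD3/DP4.lean`). -/
def ST_DPN : Prop := ∀ ε : ℝ, 0 < ε → ∃ C κ : ℝ, 0 < C ∧ 0 < κ ∧
  ∀ (N q a P y : ℕ) (D : ℝ), 1 ≤ N → 1 ≤ q → 1 ≤ y → Nat.Coprime q a → (N : ℝ) ^ ε ≤ P →
  1 ≤ D → (P : ℝ) ≤ D * (PP q P).card →
  D ^ κ * (N : ℝ) ^ ε * Real.sqrt y ≤ (NP q y).card →
  ((SS N q a).card : ℝ) ≤ C * (D ^ κ * (N : ℝ) ^ ε * y)

/-- MAIN6 (from PL, DPN) -/
def ST_MAIN6 : Prop := ∀ ε : ℝ, 0 < ε → ∃ C : ℝ, ∀ N q a y : ℕ, 1 ≤ N → 1 ≤ q → 1 ≤ y →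
  Nat.Coprime q a →
  (N : ℝ) ^ ε * Real.sqrt y ≤ (((Icc 1 y).filter (fun p => p.Prime ∧ ¬ p ∣ q)).card : ℝ) →
  (((range N).filter (fun n => IsSquare (q * n + a))).card : ℝ) ≤
    C * (N : ℝ) ^ ε * (Real.sqrt N + y)

end Pool.Agent.Helper18.RD
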