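import Pool.Agent.Helper18.RD.Stmts6

/-! Project RD, seventh form: the factor `q / φ(q)`, and moduli with `q / φ(q)` bounded. -/

set_option autoImplicit false

namespace Pool.Agent.Helper18.RD

open Finset

/-- MAIN6P (from PL2, GS, LLC, DPN) -/
def ST_MAIN6P : Prop := ∀ ε : ℝ, 0 < ε → ∃ C : ℝ, 0 < C ∧ ∀ N q a y : ℕ, 1 ≤ N → 1 ≤ q →
  1 ≤ y → Nat.Coprime q a →
  (N : ℝ) ^ ε * Real.sqrt y ≤ (((Icc 1 y).filter (fun p => p.Prime ∧ ¬ p ∣ q)).card : ℝ) →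
  (((range N).filter (fun n => IsSquare (q * n + a))).card : ℝ) ≤
    C * (Real.sqrt N * min ((q : ℝ) / (Nat.totient q : ℝ)) (1 + Real.log N) + (N : ℝ) ^ ε * y)

/-- MTZ: if `q / φ(q)` is bounded then enough primes up to some `y ≤ N ^ (1 / 4)` do not divide
`q` (Mertens: `Pool.Agent.Helper61.SO.mer_abs`). -/
def ST_MTZ : Prop := ∀ B : ℝ, 0 < B → ∃ (ε : ℝ) (N0 : ℕ), 0 < ε ∧ ε ≤ 1 / 4 ∧
  ∀ N q : ℕ, N0 ≤ N → 1 ≤ q → (q : ℝ) ≤ B * (Nat.totient q : ℝ) →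
  ∃ y : ℕ, 1 ≤ y ∧ (y : ℝ) ≤ (N : ℝ) ^ (1 / 4 : ℝ) ∧
    (N : ℝ) ^ ε * Real.sqrt y ≤ (((Icc 1 y).filter (fun p => p.Prime ∧ ¬ p ∣ q)).card : ℝ)

/-- MAIN7 (from MAIN6P, MTZ): Rudin's bound for all moduli with `q / φ(q)` bounded. -/
def ST_MAIN7 : Prop := ∀ B : ℝ, ∃ C : ℝ, ∀ N q a : ℕ, 1 ≤ q → Nat.Coprime q a →
  (q : ℝ) ≤ B * (Nat.totient q : ℝ) →
  (((range N).filter (fun n => IsSquare (q * n + a))).card : ℝ) ≤ C * Real.sqrt N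

end Pool.Agent.Helper18.RD
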