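import Pool.Agent.Helper18.RD.Stmts7

/-! Project RD, eighth form: few moduli near `√N` coprime to `q` are enough. -/

set_option autoImplicit false

namespace Pool.Agent.Helper18.RD

open Finset

/-- pairwise coprime odd squarefree moduli in `(z / 2, z]`, coprime to `q` -/
def MR (q z : ℕ) (R : Finset ℕ) : Prop :=
  (∀ r ∈ R, Squarefree r ∧ Odd r ∧ Nat.Coprime r q ∧ r ≤ z ∧ z < 2 * r) ∧
  ∀ r ∈ R, ∀ r' ∈ R, r ≠ r' → Nat.Coprime r r'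

/-- BILR: bilinear sums of the Jacobi symbol modulo an odd squarefree number (as BIL,
`Helper9/RD6/BIL.lean`; the norm of the kernel is multiplicative). -/
def ST_BILR : Prop := ∀ (R : ℕ) (J : Finset ℕ) (m F G : ℕ → ℤ), Squarefree R → Odd R →
  (∀ n, |F n| ≤ 1) → (∀ n, |G n| ≤ 1) →
  (∑ i ∈ J, ∑ j ∈ J, jacobiSym (m i + m j) R * F i * G j) ^ 2 ≤
    (R : ℤ) * (((J ×ˢ J).filter (fun x => (R : ℤ) ∣ m x.1 - m x.2)).card : ℤ) ^ 2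

/-- SMOR: second moment over pairwise coprime odd squarefree moduli in `(z / 2, z]` (from BILR; as
SMO, `Helper54/RD6/SMO.lean`; now `r r' ∣ i - j` holds for at most `N / (r r') + 1` points `j`). -/
def ST_SMOR : Prop := ∀ (N z : ℕ) (J Q : Finset ℕ) (m : ℕ → ℤ) (F G : ℕ → ℕ → ℤ), 1 ≤ N →
  1 ≤ z → J ⊆ range N → (∀ r ∈ Q, Squarefree r ∧ Odd r ∧ r ≤ z ∧ z < 2 * r) →
  (∀ r ∈ Q, ∀ r' ∈ Q, r ≠ r' → Nat.Coprime r r') →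
  (∀ r n, |F r n| ≤ 1) → (∀ r n, |G r n| ≤ 1) →
  (∀ i ∈ J, ∀ j ∈ J, ∀ r ∈ Q, (r : ℤ) ∣ m i - m j → (r : ℤ) ∣ (i : ℤ) - j) →
  ((∑ i ∈ J, ∑ j ∈ J, (∑ r ∈ Q, jacobiSym (m i + m j) r * F r i * G r j) ^ 2 : ℤ) : ℝ) ≤
    (Q.card : ℝ) * J.card ^ 2 + 4 * ((z : ℝ) + N / z) * Q.card ^ 2 * J.card

/-- BDJR: as BDJ (from MO1, ENE, ENP, SMOR). -/
def ST_BDJR : Prop := ∀ K : ℕ, 1 ≤ K → ∃ C : ℝ, 0 < C ∧ ∀ (N q P z : ℕ) (D : ℝ)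
  (S J U R : Finset ℕ) (e c d : ℕ → ℕ → ℤ) (k : ℤ) (w : ℝ) (m : ℕ → ℤ), 1 ≤ N → 1 ≤ q → 1 ≤ z →
  1 ≤ D → Dat N q S e c d k w → DatN q S d m → J ⊆ S → U ⊆ PP q P →
  (∀ p ∈ U, ¬ Bal6 e J p) → (P : ℝ) ≤ D * U.card →
  C * (N : ℝ) ^ 8 * D ^ (2 * K) ≤ (P : ℝ) ^ (2 * K) → MR q z R →
  C * D ^ (2 * K) * ((z : ℝ) + N / z) ≤ J.card →
  C * D ^ (2 * K) * (1 + Real.log N) ≤ (R.card : ℝ) → False

open Classical in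
/-- BADNR: the hypothesis of GT6 (from BDJR; as BADN). -/
def ST_BADNR : Prop := ∀ K j : ℕ, 1 ≤ K → ∃ C : ℝ, 0 < C ∧ ∀ (N q P z : ℕ) (D : ℝ)
  (S R : Finset ℕ) (e c d : ℕ → ℕ → ℤ) (k : ℤ) (w : ℝ) (m : ℕ → ℤ), 1 ≤ N → 1 ≤ q → 1 ≤ z →
  1 ≤ D → Dat N q S e c d k w → DatN q S d m →
  C * (N : ℝ) ^ 8 * D ^ (2 * K) ≤ (P : ℝ) ^ (2 * K) → (P : ℝ) ≤ D * (PP q P).card → MR q z R →
  C * D ^ (2 * K) * ((z : ℝ) + N / z) ≤ S.card →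
  C * D ^ (2 * K) * (1 + Real.log N) ≤ (R.card : ℝ) →
  ∃ b : ℕ, 2 * (2 ^ j * b + j) ≤ (PP q P).card ∧
    ∀ S' : Finset ℕ, S' ⊆ S → S.card ≤ 16 ^ j * S'.card →
      ((PP q P).filter (fun p => ¬ Bal6 e S' p)).card ≤ b

/-- DPNR: as DPN (from ARN, BADNR, GT6, MLW6, END4). -/
def ST_DPNR : Prop := ∀ ε : ℝ, 0 < ε → ∃ C κ : ℝ, 0 < C ∧ 0 < κ ∧
  ∀ (N q a P z : ℕ) (R : Finset ℕ) (D : ℝ), 1 ≤ N → 1 ≤ q → 1 ≤ z → Nat.Coprime q a →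
  (N : ℝ) ^ ε ≤ P → 1 ≤ D → (P : ℝ) ≤ D * (PP q P).card → MR q z R →
  D ^ κ * (N : ℝ) ^ ε ≤ (R.card : ℝ) →
  ((SS N q a).card : ℝ) ≤ C * (D ^ κ * (N : ℝ) ^ ε * ((z : ℝ) + N / z))

/-- MAIN8 (from PL2, DPNR): if `N ^ ε` pairwise coprime odd squarefree moduli in `(z / 2, z]` are
coprime to `q` there are at most `C N ^ ε (z + N / z)` squares. -/
def ST_MAIN8 : Prop := ∀ ε : ℝ, 0 < ε → ∃ C : ℝ, 0 < C ∧ ∀ (N q a z : ℕ) (R : Finset ℕ),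
  1 ≤ N → 1 ≤ q → 1 ≤ z → Nat.Coprime q a → MR q z R → (N : ℝ) ^ ε ≤ (R.card : ℝ) →
  (((range N).filter (fun n => IsSquare (q * n + a))).card : ℝ) ≤
    C * (N : ℝ) ^ ε * ((z : ℝ) + N / z)

end Pool.Agent.Helper18.RD
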