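import Pool.Agent.Helper18.RD.Stmts8
import Pool.Agent.Helper19.RD.Stmts8

/-! Project RD, ninth form: ONE modulus `r` coprime to `q` is enough. -/

set_option autoImplicit false

namespace Pool.Agent.Helper18.RD

open Finset Pool.Agent.Helper19.RD

/-- PGX: pigeonhole outside of a set `B` of bad pairs. -/
def ST_PGX : Prop := ∀ (J : Finset ℕ) (d : ℕ → ℕ → ℤ) (B : Finset (ℕ × ℕ)) (ξ : ℝ),
  8 ≤ J.card → 0 ≤ ξ → 4 * B.card ≤ J.card ^ 2 → ((TN J d).card : ℝ) ≤ ξ * (J.card : ℝ) ^ 4 →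
  ∃ x ∈ J, ∃ y ∈ J, x ≠ y ∧ (x, y) ∉ B ∧ ((NQ J d x y).card : ℝ) ≤ 2 * ξ * (J.card : ℝ) ^ 2

/-- SPX: if `(x, y)` has few nonsquare 4-cycles and no prime of the odd squarefree modulus `r`
(coprime to `q`, all primes `≥ l`) divides `x - y`, the set `J` is small (from BILR: the sum over
`(i, j)` of `chi_r (m i + m j) F i G j`, `F i = g i (d i y / r)`, `G j = g j (d x j * d x y / r)`,
is at least `|J| ^ 2 / 2`; its square is at most `r M ^ 2`, `M ≤ |J| (N / r + 1)`; at most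
`omega(r) |J| (N / l + 1)` pairs `(i, j)` have a common prime of `r` and `i - j`). -/
def ST_SPX : Prop := ∀ (N q a r l : ℕ) (S J : Finset ℕ) (e c d : ℕ → ℕ → ℤ) (k : ℤ) (w ξ : ℝ)
  (m : ℕ → ℤ) (x y : ℕ), 1 ≤ N → 1 ≤ q → DatR N q a S e c d k w m → J ⊆ S → x ∈ J → y ∈ J →
  x ≠ y → ((NQ J d x y).card : ℝ) ≤ ξ * (J.card : ℝ) ^ 2 → ξ ≤ 1 / 16 → 100 ≤ J.card →
  Squarefree r → Odd r → Nat.Coprime r q → 1 ≤ l → (∀ p : ℕ, p.Prime → p ∣ r → l ≤ p) →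
  (∀ p : ℕ, p.Prime → p ∣ r → ¬ (p : ℤ) ∣ (x : ℤ) - y) →
  100 * (r.primeFactors.card : ℝ) * ((N : ℝ) / l + 1) ≤ J.card →
  (J.card : ℝ) ≤ 2 * (Real.sqrt r + N / Real.sqrt r)

/-- MAIN9 (from A1, PGX, SPX): one odd squarefree modulus `r` coprime to `q`, all primes of `r` at
least `l`, gives at most `C N ^ ε (√r + N / √r + N / l)` squares. -/
def ST_MAIN9 : Prop := ∀ ε : ℝ, 0 < ε → ∃ C : ℝ, 0 < C ∧ ∀ N q a r l : ℕ, 1 ≤ N → 1 ≤ q →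
  Nat.Coprime q a → 2 ≤ r → Squarefree r → Odd r → Nat.Coprime r q → 1 ≤ l →
  (∀ p : ℕ, p.Prime → p ∣ r → l ≤ p) →
  (((range N).filter (fun n => IsSquare (q * n + a))).card : ℝ) ≤
    C * (N : ℝ) ^ ε * (Real.sqrt r + N / Real.sqrt r + N / l)

end Pool.Agent.Helper18.RD
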